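import Pool.Agent.N661.BR.Base
import Pool.Agent.N661.BR.Stm

/-!
# Project BR, task BASE: from the local measures with cutoff to test functions
-/

set_option autoImplicit false
set_option linter.unusedVariables false

open MeasureTheory Filter Topology Complex
open scoped ContDiff

namespace Pool.Agent.N163.BR

open Pool.Agent.W745.RW (TF)
open Pool.Agent.N661.BR

noncomputable section

/-- the ball around a point of `Ω` up to the boundary -/
theorem ball_sub {Ω : Set ℂ} (ho : IsOpen Ω) {z y : ℂ} (hz : z ∈ Ω)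
    (hy : dist z y < Metric.infDist z (frontier Ω)) : y ∈ Ω := by
  have hpc : IsPreconnected (Metric.ball z (Metric.infDist z (frontier Ω))) :=
    (convex_ball z _).isPreconnected
  have hpos : 0 < Metric.infDist z (frontier Ω) := lt_of_le_of_lt dist_nonneg hy
  have hsub : Metric.ball z (Metric.infDist z (frontier Ω)) ⊆ Ω := by
    refine hpc.subset_left_of_subset_union ho (isClosed_closure (s := Ω)).isOpen_compl ?_ ?_
      ⟨z, Metric.mem_ball_self hpos, hz⟩
    · exact Set.disjoint_compl_right_iff_subset.2 subset_closure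
    · intro p hp
      by_cases h1 : p ∈ Ω
      · exact Or.inl h1
      · right
        intro h2
        have h3 : p ∈ frontier Ω := by
          rw [ho.frontier_eq]
          exact ⟨h2, h1⟩
        rw [Metric.mem_ball, dist_comm] at hp
        exact absurd (Metric.infDist_le_dist_of_mem h3) (not_le.2 hp)
  exact hsub (by rw [Metric.mem_ball, dist_comm]; exact hy)

theorem dist_pos' {Ω : Set ℂ} (ho : IsOpen Ω) (hb : Bornology.IsBounded Ω) {z : ℂ} (hz : z ∈ Ω) :
    0 < Metric.infDist z (frontier Ω) := by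
  have hne : (frontier Ω).Nonempty := by
    rw [nonempty_frontier_iff]
    refine ⟨⟨z, hz⟩, ?_⟩
    intro h
    rw [h] at hb
    exact NormedSpace.unbounded_univ ℝ ℂ hb
  refine (isClosed_frontier.notMem_iff_infDist_pos hne).1 ?_
  intro h
  rw [ho.frontier_eq] at h
  exact h.2 hz

/-- measurability of the rescaled function -/
theorem resc_meas {Ω : Set ℂ} (ho : IsOpen Ω) (hb : Bornology.IsBounded Ω) {χ : ℝ → ℝ}
    (hχ : IsCutoff χ) {lam : ℝ} (hl : 0 < lam) {u : ℂ → ℝ} (hu : ContinuousOn u Ω) (w : ℂ) :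
    AEStronglyMeasurable (fun z => resc χ Ω lam u z w) (volume.restrict Ω) := by
  have hs : 0 < √lam := Real.sqrt_pos.2 hl
  set A : Set ℂ := Ω ∩ {z | ‖w‖ < √lam * Metric.infDist z (frontier Ω)} with hA
  have hAo : IsOpen A := ho.inter (isOpen_lt continuous_const
    (continuous_const.mul (Metric.continuous_infDist_pt _)))
  have hc : ContinuousOn (fun z => resc χ Ω lam u z w) A := by
    unfold resc
    refine ContinuousOn.mul ?_ ?_
    · refine hu.comp (by fun_prop) ?_
      intro z hz
      refine ball_sub ho hz.1 ?_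
      rw [dist_eq_norm]
      have h1 : ‖z - (z + w / ((√lam : ℝ) : ℂ))‖ = ‖w‖ / √lam := by
        rw [show z - (z + w / ((√lam : ℝ) : ℂ)) = - (w / ((√lam : ℝ) : ℂ)) by ring, norm_neg,
          norm_div, Complex.norm_real, Real.norm_of_nonneg hs.le]
      rw [h1, div_lt_iff₀ hs, mul_comm]
      exact hz.2
    · refine hχ.smooth.continuousOn.comp ?_ ?_
      · refine ContinuousOn.div continuousOn_const
          (continuous_const.mul (Metric.continuous_infDist_pt _)).continuousOn ?_
        intro z hz
        exact (mul_pos hs (dist_pos' ho hb hz.1)).ne'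
      · intro z hz
        have := dist_pos' ho hb hz.1
        show 0 ≤ ‖w‖ / (√lam * Metric.infDist z (frontier Ω))
        positivity
  have h2 : AEStronglyMeasurable (A.indicator (fun z => resc χ Ω lam u z w)) volume :=
    (aestronglyMeasurable_indicator_iff hAo.measurableSet).2
      (hc.aestronglyMeasurable hAo.measurableSet)
  refine (h2.restrict (s := Ω)).congr ?_
  refine (ae_restrict_iff' ho.measurableSet).2 (Eventually.of_forall fun z hz => ?_)
  by_cases hzA : z ∈ A
  · rw [Set.indicator_of_mem hzA]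
  · rw [Set.indicator_of_notMem hzA]
    have h3 : √lam * Metric.infDist z (frontier Ω) ≤ ‖w‖ := by
      by_contra hcon
      exact hzA ⟨hz, not_le.1 hcon⟩
    unfold resc
    dsimp only
    rw [hχ.zero _ ((one_le_div (mul_pos hs (dist_pos' ho hb hz))).2 h3), mul_zero]

theorem BASE : S_BASE := by
  intro Ω ho hb hne χ hχ lam hl hlt u hu k w t L hL φ hφ hφ1 η hη
  obtain ⟨hφs, hφc, hφt⟩ := hφ
  have hfin : volume Ω ≠ ⊤ := hb.measure_lt_top.ne
  have hV : 0 < volume.real Ω := ENNReal.toReal_pos (ho.measure_pos volume hne).ne' hfin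
  -- the distance is bounded below on the support
  obtain ⟨d0, hd0, hd⟩ : ∃ d0 : ℝ, 0 < d0 ∧ ∀ z ∈ tsupport φ, d0 ≤ Metric.infDist z (frontier Ω) := by
    rcases (tsupport φ).eq_empty_or_nonempty with h | h
    · exact ⟨1, one_pos, by rw [h]; simp⟩
    · obtain ⟨x, hx, hx'⟩ := hφc.isCompact.exists_isMinOn h
        (Metric.continuous_infDist_pt (frontier Ω)).continuousOn
      exact ⟨_, dist_pos' ho hb (hφt hx), fun z hz => hx' hz⟩
  obtain ⟨δ, hδ, hδ1⟩ := hχ.one
  have hsq : Tendsto (fun n => √(lam n)) atTop atTop := Real.tendsto_sqrt_atTop.comp hlt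
  have hev : ∀ᶠ n in atTop, ∀ j, ‖w j‖ / d0 / δ ≤ √(lam n) := by
    rw [eventually_all]
    intro j
    exact hsq.eventually_ge_atTop _
  have hLe := (Metric.tendsto_nhds.1 hL) η hη
  filter_upwards [hev, hLe] with n hn hLn
  have hs : 0 < √(lam n) := Real.sqrt_pos.2 (hl n)
  set F : ℂ → ℂ := fun z => Complex.exp
    (I * ((∑ j, t j * resc χ Ω (lam n) (u n) z (w j) : ℝ) : ℂ)) with hF
  set G : ℂ → ℂ := fun z => Complex.exp
    (I * ((∑ j, t j * u n (z + ((1 / √(lam n) : ℝ) : ℂ) * w j) : ℝ) : ℂ)) with hG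
  have hFn : ∀ z, ‖F z‖ = 1 := by
    intro z
    rw [hF]
    dsimp only
    rw [mul_comm, Complex.norm_exp_ofReal_mul_I]
  have hFm : AEStronglyMeasurable F (volume.restrict Ω) := by
    rw [hF]
    refine (by fun_prop : Continuous fun x : ℝ => Complex.exp (I * (x : ℂ))).comp_aestronglyMeasurable ?_
    refine Finset.aestronglyMeasurable_fun_sum _ fun j _ => ?_
    exact (resc_meas ho hb hχ (hl n) (hu n).continuousOn (w j)).const_mul (t j)
  have : IsFiniteMeasure (volume.restrict Ω) := ⟨by rw [Measure.restrict_apply_univ]; exact hfin.lt_top⟩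
  have hFi : Integrable F (volume.restrict Ω) := by
    refine Integrable.of_bound hFm 1 (Eventually.of_forall fun z => (hFn z).le)
  have hFG : ∀ z, (φ z : ℂ) * G z = (φ z : ℂ) * F z := by
    intro z
    by_cases hz : φ z = 0
    · rw [hz]; simp
    · have hzt : z ∈ tsupport φ := subset_tsupport _ hz
      have hzd := hd z hzt
      congr 1
      rw [hF, hG]
      dsimp only
      congr 3
      refine Finset.sum_congr rfl fun j _ => ?_
      unfold resc
      have h1 : ‖w j‖ / (√(lam n) * Metric.infDist z (frontier Ω)) ≤ δ := by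
        have hdz : 0 < Metric.infDist z (frontier Ω) := lt_of_lt_of_le hd0 hzd
        rw [div_le_iff₀ (mul_pos hs hdz)]
        have h2 := hn j
        rw [div_le_iff₀ hδ, div_le_iff₀ hd0] at h2
        calc ‖w j‖ ≤ √(lam n) * δ * d0 := h2
          _ ≤ √(lam n) * δ * Metric.infDist z (frontier Ω) := by gcongr
          _ = _ := by ring
      rw [hδ1 _ (by have := lt_of_lt_of_le hd0 hzd; positivity) h1, mul_one]
      congr 3
      push_cast
      field_simp
  have e1 : ∫ z, (φ z : ℂ) * G z = ∫ z in Ω, (φ z : ℂ) * F z := by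
    rw [setIntegral_eq_integral_of_forall_compl_eq_zero]
    · exact integral_congr_ae (Eventually.of_forall hFG)
    · intro z hz
      have : φ z = 0 := by
        by_contra h
        exact hz (hφt (subset_tsupport _ h))
      rw [this]; simp
  have e2 : ∫ z, φ z = ∫ z in Ω, φ z := by
    rw [setIntegral_eq_integral_of_forall_compl_eq_zero]
    intro z hz
    by_contra h
    exact hz (hφt (subset_tsupport _ h))
  have hφi : Integrable φ (volume.restrict Ω) :=
    (hφs.continuous.integrable_of_hasCompactSupport hφc).restrict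
  have hφF : Integrable (fun z => (φ z : ℂ) * F z) (volume.restrict Ω) := by
    refine Integrable.of_bound (C := 1) ?_ (Eventually.of_forall fun z => ?_)
    · exact (Complex.continuous_ofReal.comp hφs.continuous).aestronglyMeasurable.mul hFm
    · rw [norm_mul, hFn, mul_one, Complex.norm_real, Real.norm_of_nonneg (hφ1 z).1]
      exact (hφ1 z).2
  have e3 : ‖(∫ z in Ω, (φ z : ℂ) * F z) - ∫ z in Ω, F z‖ ≤ volume.real Ω - ∫ z, φ z := by
    rw [← integral_sub hφF hFi]
    refine (norm_integral_le_integral_norm _).trans ?_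
    have e4 : ∫ z in Ω, ‖(φ z : ℂ) * F z - F z‖ = ∫ z in Ω, (1 - φ z) := by
      refine integral_congr_ae (Eventually.of_forall fun z => ?_)
      dsimp only
      rw [show (φ z : ℂ) * F z - F z = -(((1 - φ z : ℝ) : ℂ) * F z) by push_cast; ring, norm_neg,
        norm_mul, hFn, mul_one, Complex.norm_real, Real.norm_of_nonneg (by linarith [(hφ1 z).2])]
    rw [e4, integral_sub (integrable_const _) hφi, e2]
    simp [Measure.real]
  have e5 : ((1 / volume.real Ω : ℝ) : ℂ) * (∫ z, (φ z : ℂ) * G z) - L =
      ((1 / volume.real Ω : ℝ) : ℂ) * ((∫ z in Ω, (φ z : ℂ) * F z) - ∫ z in Ω, F z) +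
        (((1 / volume.real Ω : ℝ) : ℂ) * (∫ z in Ω, F z) - L) := by
    rw [e1]; ring
  rw [e5]
  refine (norm_add_le _ _).trans ?_
  rw [dist_eq_norm] at hLn
  have e6 : ‖((1 / volume.real Ω : ℝ) : ℂ) * ((∫ z in Ω, (φ z : ℂ) * F z) - ∫ z in Ω, F z)‖ ≤
      1 - (∫ z, φ z) / volume.real Ω := by
    rw [norm_mul, Complex.norm_real, Real.norm_of_nonneg (by positivity)]
    calc 1 / volume.real Ω * ‖(∫ z in Ω, (φ z : ℂ) * F z) - ∫ z in Ω, F z‖
        ≤ 1 / volume.real Ω * (volume.real Ω - ∫ z, φ z) :=
          mul_le_mul_of_nonneg_left e3 (by positivity)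
      _ = _ := by field_simp
  linarith [hLn.le]

end

end Pool.Agent.N163.BR
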