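import Pool.Agent.N906.FH.Stm
import Pool.Agent.N50.SZ_UPA

/-!
# FH/UPAG: the upper bound, divisors near the threshold (helper163; adapted from
`Pool/Agent/N50/SZ_UPA.lean` by helper50)
-/

set_option autoImplicit false

namespace Pool.Agent.N163.FH

open Finset Filter Topology Pool.Agent.N906.SZ Pool.Agent.N906.FH
open Pool.Agent.N50.SZ (rd_pos rd_le)

/-- the choice of `u` -/
theorem numg {κ ε u₀ μ : ℝ} (hκ : 0 < κ) (hε : 0 < ε) (hu₀ : 0 < u₀) (hμ : 0 < μ) :
    ∀ᶠ x : ℝ in atTop, ∃ u : ℝ, 0 < u ∧ u < u₀ ∧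
      u * κ * x + (1 + ε) * μ / (u * Real.log (1 / u)) ≤
        (1 + ε / 2) * √(8 * μ * κ * x / Real.log x) := by
  have h := Pool.Agent.N50.SZ.num (κ := 2 * κ / μ) (by positivity) hε hu₀
  filter_upwards [h] with x hx
  obtain ⟨u, h1, h2, h3⟩ := hx
  refine ⟨u, h1, h2, ?_⟩
  have h4 := mul_le_mul_of_nonneg_left h3 (show (0 : ℝ) ≤ μ / 2 by positivity)
  have h5 : √(8 * μ * κ * x / Real.log x) = μ / 2 * √(16 * (2 * κ / μ) * x / Real.log x) := by
    rw [show 8 * μ * κ * x / Real.log x = (μ / 2) ^ 2 * (16 * (2 * κ / μ) * x / Real.log x) by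
      field_simp; ring]
    rw [Real.sqrt_mul (by positivity), Real.sqrt_sq (by positivity)]
  rw [h5]
  calc u * κ * x + (1 + ε) * μ / (u * Real.log (1 / u))
      = μ / 2 * (u * (2 * κ / μ) * x + (1 + ε) * 2 / (u * Real.log (1 / u))) := by
        field_simp
    _ ≤ _ := h4
    _ = _ := by ring

theorem upag : S_UPAG := by
  classical
  intro P w μ hμ hw _ h1 h2 lam K ε hlam hlam6 hK hε
  obtain ⟨C, hC, hcnt⟩ := h1
  obtain ⟨u₀, hu₀, hu₀2, hgen⟩ := h2 (ε / 2) (half_pos hε)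
  have hκ : 0 < 6 * lam := by positivity
  have hK0 : 0 < K := by linarith
  -- the fixed u
  obtain ⟨u₁, hu₁⟩ : ∃ u₁ : ℝ, u₁ = u₀ / 2 := ⟨_, rfl⟩
  have hu₁0 : 0 < u₁ := by rw [hu₁]; positivity
  have hu₁1 : u₁ < u₀ := by rw [hu₁]; linarith
  obtain ⟨G₁, hG₁⟩ : ∃ G₁ : ℝ, G₁ = Real.exp ((1 + ε / 2) * μ / (u₁ * Real.log (1 / u₁))) :=
    ⟨_, rfl⟩
  have hG₁0 : 0 < G₁ := by rw [hG₁]; exact Real.exp_pos _
  obtain ⟨A, hA⟩ : ∃ A : ℝ, A = C * (K * K) + C * G₁ := ⟨_, rfl⟩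
  have hev := (numg hκ (half_pos hε) hu₀ hμ).and
    ((Pool.Agent.N50.SZ.cst (κ := μ * (3 * lam)) (A := A) (by positivity)
      (show 0 < ε / 2 by positivity)).and (eventually_ge_atTop (2 : ℝ)))
  obtain ⟨L₀, hL₀⟩ := eventually_atTop.1 hev
  refine ⟨max (Real.exp L₀) 4, lt_max_of_lt_right (by norm_num), ?_⟩
  intro X Y T R F hX hY hT1 hTX hYT hRX hF
  have hX4 : 4 ≤ X := (le_max_right _ _).trans hX
  have hX0 : 0 < X := by linarith
  have hX1 : 1 ≤ X := by linarith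
  obtain ⟨L, hL⟩ : ∃ L : ℝ, L = Real.log X := ⟨_, rfl⟩
  have hLL : L₀ ≤ L := by
    rw [hL, Real.le_log_iff_exp_le hX0]
    exact (le_max_left _ _).trans hX
  obtain ⟨⟨u, hu0, huu, hunum⟩, hAs, hL2⟩ := hL₀ L hLL
  rw [← hL]
  have hS16 : 8 * μ * (6 * lam) * L = 48 * μ * lam * L := by ring
  have hS16' : 16 * (μ * (3 * lam)) * L = 48 * μ * lam * L := by ring
  rw [hS16] at hunum
  rw [hS16'] at hAs
  obtain ⟨S, hS⟩ : ∃ S : ℝ, S = √(48 * μ * lam * L / Real.log L) := ⟨_, rfl⟩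
  rw [← hS] at hunum hAs ⊢
  have hS0 : 0 ≤ S := by rw [hS]; exact Real.sqrt_nonneg _
  have hu1 : u < 1 := by linarith
  have hY0 : 0 < Y := by linarith
  have hT0 : 0 < T := by linarith
  -- the divisors
  have hn' : ∀ x : ℤ × ℤ, ∃ n : ℕ, x ∈ F → 1 ≤ n ∧ T ≤ n ∧ (n : ℝ) ≤ R ∧ P n x.1 x.2 := by
    intro x
    by_cases hx : x ∈ F
    · obtain ⟨n, hn⟩ := (hF x hx).2.2
      exact ⟨n, fun _ => hn⟩
    · exact ⟨0, fun h => absurd h hx⟩
  choose nn hnn using hn'
  have hD : ∀ n ∈ F.image nn, 1 ≤ n ∧ T ≤ n ∧ (n : ℝ) ≤ X := by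
    intro n hn
    obtain ⟨x, hx, rfl⟩ := mem_image.1 hn
    obtain ⟨q1, q2, q3, -⟩ := hnn x hx
    exact ⟨q1, q2, q3.trans hRX⟩
  have hcard : (F.card : ℝ) ≤ ∑ n ∈ F.image nn,
      (C * w n * (Y / (X * (n * rd n : ℕ)) + X ^ 2)) := by
    rw [card_eq_sum_card_image nn F]
    push_cast
    refine Finset.sum_le_sum fun n hn => ?_
    obtain ⟨q1, q2, q3⟩ := hD n hn
    have := hcnt X Y n hX1 hY q1 (by
      have r2 : (rd n : ℝ) ≤ n := by exact_mod_cast rd_le q1
      push_cast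
      have r3 : (0 : ℝ) ≤ n := Nat.cast_nonneg _
      have r4 : (0 : ℝ) ≤ rd n := Nat.cast_nonneg _
      nlinarith) {x ∈ F | nn x = n} (by
      intro x hx
      rw [mem_filter] at hx
      obtain ⟨hxF, rfl⟩ := hx
      exact ⟨(hF x hxF).1, (hF x hxF).2.1, (hnn x hxF).2.2.2⟩)
    push_cast at this ⊢
    exact this
  -- the first part
  have p1 : ∑ n ∈ F.image nn, w n * (Y / (X * (n * rd n : ℕ))) ≤
      Y / X * T ^ (u - 1) *
        Real.exp ((1 + ε / 2) * μ / (u * Real.log (1 / u))) := by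
    have g := hgen u hu0 huu (F.image nn) (fun n hn => (hD n hn).1)
    refine le_trans ?_ (mul_le_mul_of_nonneg_left g (by positivity))
    rw [Finset.mul_sum]
    refine Finset.sum_le_sum fun n hn => ?_
    obtain ⟨q1, q2, q3⟩ := hD n hn
    have hn0 : (0 : ℝ) < n := by exact_mod_cast q1
    have hr0 : (0 : ℝ) < rd n := by exact_mod_cast rd_pos n
    have hw0 := hw n
    have k1 : (n : ℝ)⁻¹ ≤ T ^ (u - 1) * (n : ℝ) ^ (-u) := by
      have k2 : (n : ℝ)⁻¹ = (n : ℝ) ^ (u - 1) * (n : ℝ) ^ (-u) := by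
        rw [← Real.rpow_add hn0, show u - 1 + -u = -1 by ring, Real.rpow_neg_one]
      rw [k2]
      apply mul_le_mul_of_nonneg_right _ (by positivity)
      exact Real.rpow_le_rpow_of_nonpos hT0 q2 (by linarith)
    calc w n * (Y / (X * (n * rd n : ℕ)))
        = Y / X * (w n / rd n) * (n : ℝ)⁻¹ := by
          push_cast; field_simp
      _ ≤ Y / X * (w n / rd n) * (T ^ (u - 1) * (n : ℝ) ^ (-u)) :=
          mul_le_mul_of_nonneg_left k1 (by positivity)
      _ = _ := by ring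
  -- the second part
  have p2 : ∑ n ∈ F.image nn, w n ≤ X ^ (1 + u₁) * G₁ := by
    have g := hgen u₁ hu₁0 hu₁1 (F.image nn) (fun n hn => (hD n hn).1)
    rw [← hG₁] at g
    refine le_trans ?_ (mul_le_mul_of_nonneg_left g (by positivity))
    rw [Finset.mul_sum]
    refine Finset.sum_le_sum fun n hn => ?_
    obtain ⟨q1, q2, q3⟩ := hD n hn
    have hn0 : (0 : ℝ) < n := by exact_mod_cast q1
    have hr0 : (0 : ℝ) < rd n := by exact_mod_cast rd_pos n
    have hrn : (rd n : ℝ) ≤ n := by exact_mod_cast rd_le q1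
    have k1 : (1 : ℝ) ≤ X ^ (1 + u₁) * ((n : ℝ) ^ (-u₁) / rd n) := by
      rw [mul_div_assoc', le_div_iff₀ hr0, one_mul]
      calc (rd n : ℝ) ≤ n := hrn
        _ = (n : ℝ) ^ (1 + u₁) * (n : ℝ) ^ (-u₁) := by
            rw [← Real.rpow_add hn0, show 1 + u₁ + -u₁ = 1 by ring, Real.rpow_one]
        _ ≤ _ := by
            apply mul_le_mul_of_nonneg_right _ (by positivity)
            exact Real.rpow_le_rpow hn0.le q3 (by linarith)
    calc w n = w n * 1 := (mul_one _).symm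
      _ ≤ w n * (X ^ (1 + u₁) * ((n : ℝ) ^ (-u₁) / rd n)) :=
          mul_le_mul_of_nonneg_left k1 (hw n)
      _ = _ := by ring
  have hcard2 : (F.card : ℝ) ≤ C * (Y / X * T ^ (u - 1) *
        Real.exp ((1 + ε / 2) * μ / (u * Real.log (1 / u)))) +
        C * X ^ 2 * (X ^ (1 + u₁) * G₁) := by
    refine hcard.trans ?_
    have e1 : ∑ n ∈ F.image nn, (C * w n * (Y / (X * (n * rd n : ℕ)) + X ^ 2)) =
        C * (∑ n ∈ F.image nn, w n * (Y / (X * (n * rd n : ℕ)))) +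
        C * X ^ 2 * ∑ n ∈ F.image nn, w n := by
      rw [Finset.mul_sum, Finset.mul_sum, ← Finset.sum_add_distrib]
      exact Finset.sum_congr rfl fun n _ => by ring
    rw [e1]
    exact add_le_add (mul_le_mul_of_nonneg_left p1 hC.le)
      (mul_le_mul_of_nonneg_left p2 (by positivity))
  -- the sizes
  have hXe : X = Real.exp L := by rw [hL, Real.exp_log hX0]
  have s2 : X ^ 2 * (X ^ (1 + u₁) * G₁) ≤ G₁ * Real.exp ((5 - 6 * lam) * L) := by
    have k1 : X ^ (1 + u₁) ≤ X ^ (2 : ℝ) :=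
      Real.rpow_le_rpow_of_exponent_le hX1 (by linarith)
    rw [Real.rpow_two] at k1
    have k2 : X ^ 4 ≤ Real.exp ((5 - 6 * lam) * L) := by
      rw [hXe, ← Real.exp_nat_mul]
      apply Real.exp_le_exp.2
      push_cast
      nlinarith
    calc X ^ 2 * (X ^ (1 + u₁) * G₁) ≤ X ^ 2 * (X ^ 2 * G₁) := by
          apply mul_le_mul_of_nonneg_left _ (by positivity)
          exact mul_le_mul_of_nonneg_right k1 hG₁0.le
      _ = G₁ * X ^ 4 := by ring
      _ ≤ _ := mul_le_mul_of_nonneg_left k2 hG₁0.le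
  have s1 : Y / X * T ^ (u - 1) ≤
      (K * K) * Real.exp ((5 - 6 * lam) * L + u * (6 * lam) * L) := by
    have k1 : T * T ^ (u - 1) = T ^ u := by
      rw [Real.rpow_sub_one hT0.ne']; field_simp
    have k2 : T ^ u ≤ K * Real.exp (u * (6 * lam) * L) := by
      calc T ^ u ≤ (K * X ^ (6 * lam)) ^ u := Real.rpow_le_rpow hT0.le hTX hu0.le
        _ = K ^ u * (X ^ (6 * lam)) ^ u := Real.mul_rpow hK0.le (by positivity)
        _ = K ^ u * Real.exp (u * (6 * lam) * L) := by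
            congr 1
            rw [hXe, ← Real.exp_mul, ← Real.exp_mul]
            congr 1; ring
        _ ≤ K * Real.exp (u * (6 * lam) * L) := by
            apply mul_le_mul_of_nonneg_right _ (Real.exp_pos _).le
            calc K ^ u ≤ K ^ (1 : ℝ) := Real.rpow_le_rpow_of_exponent_le hK hu1.le
              _ = K := Real.rpow_one K
    have k3 : X ^ (6 - 6 * lam) / X = Real.exp ((5 - 6 * lam) * L) := by
      rw [hXe, ← Real.exp_mul, ← Real.exp_sub]
      congr 1; ring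
    calc Y / X * T ^ (u - 1) ≤ (K * T * X ^ (6 - 6 * lam)) / X * T ^ (u - 1) := by
          apply mul_le_mul_of_nonneg_right _ (by positivity)
          exact div_le_div_of_nonneg_right hYT hX0.le
      _ = K * (X ^ (6 - 6 * lam) / X) * (T * T ^ (u - 1)) := by ring
      _ ≤ K * (X ^ (6 - 6 * lam) / X) * (K * Real.exp (u * (6 * lam) * L)) := by
          rw [k1]
          exact mul_le_mul_of_nonneg_left k2 (by positivity)
      _ = _ := by rw [k3, Real.exp_add]; ring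
  -- the end
  have t1 : Y / X * T ^ (u - 1) *
        Real.exp ((1 + ε / 2) * μ / (u * Real.log (1 / u))) ≤
      (K * K) * (Real.exp ((5 - 6 * lam) * L) * Real.exp ((1 + ε / 2) * S)) := by
    refine (mul_le_mul_of_nonneg_right s1 (Real.exp_pos _).le).trans ?_
    rw [mul_assoc]
    apply mul_le_mul_of_nonneg_left _ (by positivity)
    rw [← Real.exp_add, ← Real.exp_add]
    apply Real.exp_le_exp.2
    nlinarith
  have t2 : X ^ 2 * (X ^ (1 + u₁) * G₁) ≤
      G₁ * (Real.exp ((5 - 6 * lam) * L) * Real.exp ((1 + ε / 2) * S)) := by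
    refine s2.trans ?_
    apply mul_le_mul_of_nonneg_left _ (by positivity)
    have : 1 ≤ Real.exp ((1 + ε / 2) * S) := Real.one_le_exp (by positivity)
    nlinarith [Real.exp_pos ((5 - 6 * lam) * L)]
  calc (F.card : ℝ) ≤ _ := hcard2
    _ ≤ C * ((K * K) * (Real.exp ((5 - 6 * lam) * L) * Real.exp ((1 + ε / 2) * S))) +
        C * (G₁ * (Real.exp ((5 - 6 * lam) * L) * Real.exp ((1 + ε / 2) * S))) := by
        rw [mul_assoc C (X ^ 2)]
        exact add_le_add (mul_le_mul_of_nonneg_left t1 hC.le)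
          (mul_le_mul_of_nonneg_left t2 hC.le)
    _ = A * (Real.exp ((5 - 6 * lam) * L) * Real.exp ((1 + ε / 2) * S)) := by rw [hA]; ring
    _ ≤ Real.exp (ε / 2 * S) * (Real.exp ((5 - 6 * lam) * L) * Real.exp ((1 + ε / 2) * S)) :=
        mul_le_mul_of_nonneg_right hAs (by positivity)
    _ = Real.exp ((5 - 6 * lam) * L + (1 + ε) * S) := by
        rw [← Real.exp_add, ← Real.exp_add]
        congr 1; ring

end Pool.Agent.N163.FH
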