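import Mathlib
import Pool.Agent.N576.MX.Defs
import Pool.Agent.N576.MK.A8

set_option autoImplicit false

/-!
# Project MX (helper576), parts LIGHTLEN and LIGHTCLS (helper163): the class of light words
-/

namespace Pool.Agent.N163.MX

open Pool.Agent.H499R2 Pool.Agent.TH880.MK Pool.Agent.N576.MK Pool.Agent.N576.MX

noncomputable section

/-- the first block of a word -/
lemma block (c : Bool) (w : List Bool) : ∃ (m : ℕ) (w1 : List Bool),
    w = List.replicate m c ++ w1 ∧ (w1 = [] ∨ ∃ w2, w1 = (!c) :: w2) := by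
  induction w with
  | nil => exact ⟨0, [], rfl, Or.inl rfl⟩
  | cons b w ih =>
    by_cases h : b = c
    · subst h
      obtain ⟨m, w1, h1, h2⟩ := ih
      exact ⟨m + 1, w1, by rw [List.replicate_succ, List.cons_append, ← h1], h2⟩
    · refine ⟨0, b :: w, rfl, Or.inr ⟨w, ?_⟩⟩
      cases b <;> cases c <;> simp_all

lemma mm_le_pvs (g : List Bool) (c : Bool) : mm g ≤ pvs g c := by
  unfold mm pvs
  cases c
  · exact min_le_right _ _
  · exact min_le_left _ _

lemma mm_mono {k i : List Bool} (h : k <+: i) : mm k ≤ mm i := by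
  obtain ⟨h1, h2⟩ := pq_prefix h
  unfold mm
  exact min_le_min h1 h2

lemma blocks {τ : ℕ → ℕ} {n0 : ℕ} (n : ℕ) : ∀ (k w : List Bool), w.length ≤ n → Lt τ (k ++ w) →
    (∀ r, mm k ≤ r → τ r ≤ n0) →
    ∃ B : ℕ, w.length ≤ B * n0 ∧ 2 ^ (B / 2) * sz k ≤ sz (k ++ w) := by
  induction n with
  | zero =>
    intro k w hw _ _
    refine ⟨0, by omega, ?_⟩
    have := sz_prefix (List.prefix_append k w)
    simpa using this
  | succ n ih =>
    intro k w hw hL hτ
    rcases w with _ | ⟨c, w0⟩
    · exact ⟨0, by simp, by simp⟩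
    obtain ⟨m, w1, h1, h2⟩ := block c w0
    have hw1 : c :: w0 = List.replicate (m + 1) c ++ w1 := by
      rw [List.replicate_succ, List.cons_append, ← h1]
    rw [hw1] at hw hL ⊢
    have hm : m + 1 ≤ n0 := by
      have h3 := hL k c (m + 1) (by
        unfold rn
        rw [← List.append_assoc]
        exact List.prefix_append _ _)
      exact h3.trans (hτ _ (mm_le_pvs k c))
    rcases h2 with rfl | ⟨w2, rfl⟩
    · refine ⟨1, ?_, ?_⟩
      · simp only [List.append_nil, List.length_replicate]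
        omega
      · have := sz_prefix (List.prefix_append k (List.replicate (m + 1) c ++ []))
        simpa using this
    · obtain ⟨m2, w3, h3, -⟩ := block (!c) w2
      have hw3 : (!c) :: w2 = List.replicate (m2 + 1) (!c) ++ w3 := by
        rw [List.replicate_succ, List.cons_append, ← h3]
      rw [hw3] at hw hL ⊢
      obtain ⟨k1, hk1⟩ : ∃ k1, k1 = k ++ List.replicate (m + 1) c := ⟨_, rfl⟩
      obtain ⟨k2, hk2⟩ : ∃ k2, k2 = k1 ++ List.replicate (m2 + 1) (!c) := ⟨_, rfl⟩
      have e1 : k ++ (List.replicate (m + 1) c ++ (List.replicate (m2 + 1) (!c) ++ w3)) =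
          k2 ++ w3 := by
        rw [hk2, hk1]
        simp only [List.append_assoc]
      rw [e1] at hL ⊢
      have hkk1 : k <+: k1 := by rw [hk1]; exact List.prefix_append _ _
      have hk12 : k1 <+: k2 := by rw [hk2]; exact List.prefix_append _ _
      have hm2 : m2 + 1 ≤ n0 := by
        have h3 := hL k1 (!c) (m2 + 1) (by
          unfold rn
          rw [← hk2]
          exact List.prefix_append _ _)
        exact h3.trans (hτ _ ((mm_mono hkk1).trans (mm_le_pvs k1 (!c))))
      simp only [List.length_append, List.length_replicate] at hw ⊢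
      obtain ⟨B, hB1, hB2⟩ := ih k2 w3 (by omega) hL
        (fun r hr => hτ r ((mm_mono (hkk1.trans hk12)).trans hr))
      refine ⟨B + 2, ?_, ?_⟩
      · have : (B + 2) * n0 = B * n0 + n0 + n0 := by ring
        omega
      · have h4 : (B + 2) / 2 = B / 2 + 1 := by omega
        have h5 : 2 * sz k ≤ sz k2 := by
          refine sz_turn (b := c) (List.prefix_refl k) (B := k1) ?_ ?_
          · rw [hk1, List.replicate_succ]
            exact ⟨List.replicate m c, by simp⟩
          · rw [hk2, List.replicate_succ]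
            exact ⟨List.replicate m2 (!c), by simp⟩
        rw [h4, pow_succ]
        calc 2 ^ (B / 2) * 2 * sz k = 2 ^ (B / 2) * (2 * sz k) := by ring
          _ ≤ 2 ^ (B / 2) * sz k2 := Nat.mul_le_mul_left _ h5
          _ ≤ _ := hB2

theorem lightlen : LIGHTLEN := by
  intro τ k l n0 hL hkl hτ
  obtain ⟨w, rfl⟩ := hkl
  obtain ⟨B, h1, h2⟩ := blocks w.length k w le_rfl hL hτ
  have hsz : 1 ≤ sz k := by
    have := (sz_pq k)
    have hv := (valid_root.desc k).p1
    omega
  have h3 : 2 ^ (B / 2) ≤ sz (k ++ w) := by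
    calc 2 ^ (B / 2) = 2 ^ (B / 2) * 1 := (mul_one _).symm
      _ ≤ 2 ^ (B / 2) * sz k := Nat.mul_le_mul_left _ hsz
      _ ≤ _ := h2
  have h4 : B / 2 ≤ Nat.log 2 (sz (k ++ w)) := Nat.le_log_of_pow_le (by norm_num) h3
  rw [List.length_append]
  have h5 : B ≤ 2 * Nat.log 2 (sz (k ++ w)) + 2 := by omega
  have h6 := Nat.mul_le_mul_right n0 h5
  omega

lemma Lt_prefix {τ : ℕ → ℕ} {i l : List Bool} (h : i <+: l) (hl : Lt τ l) : Lt τ i :=
  fun g c m hm => hl g c m (hm.trans h)

theorem lightcls : LIGHTCLS := by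
  classical
  intro H S0 τ X0 X1 Y hH hS0 hτ
  obtain ⟨La, hLa⟩ : ∃ La, La = 2 * Nat.log 2 (4 * S0) + 2 := ⟨_, rfl⟩
  rw [← hLa]
  have hτ' : ∀ (k : List Bool) (r : ℕ), mm k ≤ r → τ r ≤ X1 / mm k + Y := by
    intro k r hr
    have h1 := mm_pos k
    have hr0 : 0 < r := by omega
    have h2 := (hτ r (by omega)).2
    have h3 : τ r ≤ (X1 + Y * r) / r := (Nat.le_div_iff_mul_le hr0).2 h2
    rw [Nat.add_mul_div_right _ _ hr0] at h3
    have h4 : X1 / r ≤ X1 / mm k := Nat.div_le_div_left hr h1
    omega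
  have hlog : ∀ x, x ≤ 4 * S0 → 2 * Nat.log 2 x + 2 ≤ La := by
    intro x hx
    have := Nat.log_mono_right (b := 2) hx
    omega
  refine ⟨fun _ => by positivity, fun k X hX => ?_, fun P hP A hA => ?_⟩
  · obtain ⟨nk, hnk⟩ : ∃ nk, nk = La * (X1 / mm k + Y) := ⟨_, rfl⟩
    rw [← hnk]
    have hlen : ∀ l ∈ X, l.length ≤ k.length + nk := by
      intro l hl
      obtain ⟨h1, -, h2, h3⟩ := hX l hl
      have h4 := lightlen τ k l (X1 / mm k + Y) h1 h3 (hτ' k)
      have h5 := Nat.mul_le_mul_right (X1 / mm k + Y) (hlog (sz l) (by omega))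
      omega
    have h1 := chain_indL X (k.length + nk) hlen nk k (by omega)
    have h2 : cnt X k = X.card := by
      unfold cnt; rw [Finset.filter_true_of_mem (fun l hl => (hX l hl).2.2.2)]
    rw [h2, cnt_eq] at h1
    have h3 : (X.card : ℝ) ≤ 2 * (2 * ((Bst X).filter (fun i => k <+: i)).card + 1) * (nk + 1) := by
      exact_mod_cast h1
    refine h3.trans ?_
    have h4 : (0 : ℝ) ≤ ((Bst X).filter (fun i => k <+: i)).card := Nat.cast_nonneg _
    have h5 : (0 : ℝ) ≤ nk := Nat.cast_nonneg _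
    nlinarith [mul_nonneg h4 h5]
  · have hcard : A.card ≤ La * X0 + 1 := by
      apply card_of_length
      · intro k hk
        obtain ⟨h1, l, h2, h3⟩ := hA k hk
        have h4 := lightlen τ [] k X0 (Lt_prefix h3 h2) List.nil_prefix (fun r hr =>
          (hτ r ((mm_pos []).trans hr)).1)
        have h5 := Hg_sz h1
        have h6 := Nat.mul_le_mul_right X0 (hlog (sz k) (by omega))
        rw [List.length_nil] at h4
        omega
      · intro k hk k' hk' he
        exact Hg_len (hA k hk).1 (hA k' hk').1 he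
    have hcard' : (A.card : ℝ) ≤ ((La * X0 + 1 : ℕ) : ℝ) := by exact_mod_cast hcard
    have h1 : ∀ k ∈ A, 4 * (((La * (X1 / mm k + Y) : ℕ) : ℝ) + 1) ≤
        4 * (La * X1 * (1 / mm k) + ((La * Y + 1 : ℕ) : ℝ)) := by
      intro k _
      have h2 : ((X1 / mm k : ℕ) : ℝ) ≤ X1 * (1 / mm k) := by
        refine Nat.cast_div_le.trans (le_of_eq ?_)
        ring
      have h3 : (La : ℝ) * ((X1 / mm k : ℕ) : ℝ) ≤ La * (X1 * (1 / mm k)) :=
        mul_le_mul_of_nonneg_left h2 (Nat.cast_nonneg _)
      rw [Nat.cast_mul, Nat.cast_add, Nat.cast_add, Nat.cast_mul, Nat.cast_one]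
      nlinarith
    have h2 := hang_weight A P
    have h3 : A.filter (Hg P) = A := Finset.filter_true_of_mem (fun k hk => (hA k hk).1)
    rw [h3] at h2
    have hlg : ∀ n : ℕ, 1 ≤ n → n ≤ S0 → Real.log n ≤ Real.log S0 := fun n h1 h2 =>
      Real.log_le_log (by exact_mod_cast h1) (by exact_mod_cast h2)
    have hv := valid_root.desc P
    have hsz := sz_pq P
    have l1 := hlg _ hv.p1 (by have := hv.q1; omega)
    have l2 := hlg _ hv.q1 (by have := hv.p1; omega)
    refine (Finset.sum_le_sum h1).trans ?_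
    rw [← Finset.mul_sum, Finset.sum_add_distrib, ← Finset.mul_sum, Finset.sum_const, nsmul_eq_mul]
    apply mul_le_mul_of_nonneg_left _ (by norm_num)
    refine add_le_add ?_ ?_
    · apply mul_le_mul_of_nonneg_left _ (by positivity)
      linarith
    · rw [mul_comm]
      exact mul_le_mul_of_nonneg_left hcard' (Nat.cast_nonneg _)

end

end Pool.Agent.N163.MX
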