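import Pool.Agent.N652.OM.Stm

/-!
# Project OM: extensions of LEF groups by `ℤ` are sofic (`S_EXT`)
-/

set_option autoImplicit false

namespace Pool.Agent.N163.OMExt

open Pool.Agent.N44.NS (LEF)
open Pool.Agent.H21R2 (IsSofic hamm)

noncomputable section

variable {Γ : Type} [Group Γ]

theorem split (π : Γ →* Multiplicative ℤ) :
    ∃ (t : Γ) (k : Γ → ℤ), (∀ a b, k (a * b) = k a + k b) ∧
      (∀ a, a * t ^ (-(k a)) ∈ π.ker) := by
  obtain ⟨⟨g, t, ht⟩, hg⟩ := (inferInstance : IsCyclic π.range).exists_generator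
  have hd : ∀ a, Multiplicative.toAdd (π t) ∣ Multiplicative.toAdd (π a) := by
    intro a
    obtain ⟨n, hn⟩ := Subgroup.mem_zpowers_iff.1 (hg ⟨π a, a, rfl⟩)
    have h1 : (π t) ^ n = π a := by
      have := congrArg Subtype.val hn
      simpa [ht] using this
    refine ⟨n, ?_⟩
    rw [← h1, toAdd_zpow, smul_eq_mul, mul_comm]
  refine ⟨t, fun a => Multiplicative.toAdd (π a) / Multiplicative.toAdd (π t), ?_, ?_⟩
  · intro a b
    show Multiplicative.toAdd (π (a * b)) / _ = _
    rw [map_mul, toAdd_mul, Int.add_ediv_of_dvd_left (hd a)]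
  · intro a
    show a * t ^ (-(Multiplicative.toAdd (π a) / Multiplicative.toAdd (π t))) ∈ _
    rw [MonoidHom.mem_ker, map_mul, map_zpow]
    apply Multiplicative.toAdd.injective
    rw [toAdd_mul, toAdd_zpow, toAdd_one, smul_eq_mul, neg_mul, Int.ediv_mul_cancel (hd a),
      add_neg_cancel]

/-- the permutation of `ZMod m × Q` -/
def sg {m : ℕ} {Q : Type} [Group Q] (k : ℤ) (f : ZMod m → Q) : Equiv.Perm (ZMod m × Q) where
  toFun p := (p.1 + k, f (p.1 + k) * p.2)
  invFun p := (p.1 - k, (f p.1)⁻¹ * p.2)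
  left_inv := by rintro ⟨i, q⟩; simp
  right_inv := by rintro ⟨i, q⟩; simp

theorem hamm_transport {V : Type} [Fintype V] [DecidableEq V] (e : V ≃ Fin (Fintype.card V))
    (σ τ : Equiv.Perm V) :
    hamm (e.permCongr σ) (e.permCongr τ) =
      ((Finset.univ.filter fun v => σ v ≠ τ v).card : ℝ) / (Fintype.card V : ℝ) := by
  unfold hamm
  congr 2
  refine Finset.card_bij (fun i _ => e.symm i) ?_ ?_ ?_
  · intro i hi
    simp only [Finset.mem_filter, Finset.mem_univ, true_and, Equiv.permCongr_apply, ne_eq,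
      EmbeddingLike.apply_eq_iff_eq] at hi ⊢
    exact hi
  · intro i _ j _ h
    exact e.symm.injective h
  · intro v hv
    refine ⟨e v, ?_, by simp⟩
    simp only [Finset.mem_filter, Finset.mem_univ, true_and, Equiv.permCongr_apply, ne_eq,
      EmbeddingLike.apply_eq_iff_eq, Equiv.symm_apply_apply] at hv ⊢
    exact hv

/-- few `j` leave the interval -/
theorem count (m : ℕ) [NeZero m] (K : ℕ) (k : ℤ) (hk : |k| ≤ K) :
    (Finset.univ.filter fun j : ZMod m => ¬ (0 ≤ (j.val : ℤ) + k ∧ (j.val : ℤ) + k < m)).card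
      ≤ 2 * K := by
  have h1 : (Finset.univ.filter fun j : ZMod m =>
      ¬ (0 ≤ (j.val : ℤ) + k ∧ (j.val : ℤ) + k < m)).card ≤
      (Finset.Ico (m - K) m ∪ Finset.range K).card := by
    refine Finset.card_le_card_of_injOn (fun j => j.val) ?_ ?_
    · intro j hj
      have hj' := (Finset.mem_filter.1 (Finset.mem_coe.1 hj)).2
      have hlt := ZMod.val_lt j
      rw [Finset.mem_coe, Finset.mem_union, Finset.mem_Ico, Finset.mem_range]
      have := abs_le.1 hk
      dsimp only
      omega
    · intro i _ j _ h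
      exact ZMod.val_injective m h
  refine h1.trans ((Finset.card_union_le _ _).trans ?_)
  rw [Nat.card_Ico, Finset.card_range]
  omega

theorem main : Pool.Agent.N652.OM.S_EXT := by
  classical
  intro Γ _ π hL A h1A ε hε
  obtain ⟨t, k, hk, hker⟩ := split π
  -- bounds
  obtain ⟨K, hK⟩ : ∃ K : ℕ, ∀ a ∈ A, |k a| ≤ K := by
    refine ⟨∑ a ∈ A, (k a).natAbs, fun a ha => ?_⟩
    have := Finset.single_le_sum (f := fun a => (k a).natAbs) (fun _ _ => Nat.zero_le _) ha
    rw [Int.abs_eq_natAbs]
    exact_mod_cast this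
  obtain ⟨m0, hm0⟩ := exists_nat_gt ((2 * K : ℝ) / ε)
  set m : ℕ := m0 + K + 1 with hm
  have : NeZero m := ⟨by omega⟩
  have hmK : ((2 * K : ℕ) : ℝ) < ε * m := by
    rw [div_lt_iff₀ hε] at hm0
    rw [hm]
    push_cast
    nlinarith [mul_nonneg hε.le (Nat.cast_nonneg (α := ℝ) K)]
  -- the elements of the kernel
  have hmem : ∀ (j : ℤ) (a : Γ), t ^ (-j) * a * t ^ (j - k a) ∈ π.ker := by
    intro j a
    have h := π.normal_ker.conj_mem _ (hker a) (t ^ (-j))
    have h2 : t ^ (-j) * a * t ^ (j - k a) = t ^ (-j) * (a * t ^ (-(k a))) * (t ^ (-j))⁻¹ := by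
      rw [← zpow_neg, neg_neg, mul_assoc, mul_assoc, mul_assoc, ← zpow_add]
      congr 3
      ring
    rw [h2]
    exact h
  let c : ℤ → Γ → π.ker := fun j a => ⟨t ^ (-j) * a * t ^ (j - k a), hmem j a⟩
  have hcm : ∀ (j : ℤ) (a b : Γ), c j (a * b) = c j a * c (j - k a) b := by
    intro j a b
    apply Subtype.ext
    show t ^ (-j) * (a * b) * t ^ (j - k (a * b)) =
      t ^ (-j) * a * t ^ (j - k a) * (t ^ (-(j - k a)) * b * t ^ (j - k a - k b))
    rw [hk]
    have h3 : t ^ (j - k a) * (t ^ (-(j - k a)) * b * t ^ (j - k a - k b)) =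
        b * t ^ (j - k a - k b) := by
      rw [mul_assoc (t ^ (-(j - k a))), ← mul_assoc (t ^ (j - k a)), ← zpow_add, add_neg_cancel,
        zpow_zero, one_mul]
    rw [mul_assoc (t ^ (-j) * a), h3, ← sub_sub]
    simp only [mul_assoc]
  have hk1 : k 1 = 0 := by
    have := hk 1 1
    rw [mul_one] at this
    omega
  have hc1 : ∀ j, c j 1 = 1 := by
    intro j
    apply Subtype.ext
    show t ^ (-j) * 1 * t ^ (j - k 1) = 1
    rw [hk1, mul_one, sub_zero, ← zpow_add, neg_add_cancel, zpow_zero]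
  -- the finite set
  let E : Finset π.ker := (A ×ˢ Finset.range m).image fun p => c (p.2 : ℤ) p.1
  have hE : ∀ a ∈ A, ∀ j : ZMod m, c (j.val : ℤ) a ∈ E := by
    intro a ha j
    exact Finset.mem_image.2 ⟨(a, j.val), Finset.mem_product.2 ⟨ha, Finset.mem_range.2 (ZMod.val_lt j)⟩, rfl⟩
  have h1E : (1 : π.ker) ∈ E := by
    have := hE 1 h1A 0
    rwa [hc1] at this
  obtain ⟨Q, _, _, φ, hφm, hφi⟩ := hL E
  have := Fintype.ofFinite Q
  have hφ1 : φ 1 = 1 := by
    have h := hφm 1 h1E 1 h1E (by rwa [one_mul])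
    rw [one_mul] at h
    exact (mul_eq_left.1 h.symm)
  -- the space
  let e : (ZMod m × Q) ≃ Fin (Fintype.card (ZMod m × Q)) := Fintype.equivFin _
  let S : Γ → Equiv.Perm (ZMod m × Q) := fun a => sg (k a) (fun j => φ (c (j.val : ℤ) a))
  have hcard : (Fintype.card (ZMod m × Q) : ℝ) = m * Fintype.card Q := by
    rw [Fintype.card_prod, ZMod.card]
    push_cast
    ring
  have hQpos : (0 : ℝ) < Fintype.card Q := by exact_mod_cast Fintype.card_pos
  have hmpos : (0 : ℝ) < m := by exact_mod_cast (NeZero.pos m)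
  have hcpos : (0 : ℝ) < Fintype.card (ZMod m × Q) := by
    rw [hcard]; positivity
  refine ⟨Fintype.card (ZMod m × Q), Fintype.card_pos, fun a => e.permCongr (S a), ?_, ?_, ?_⟩
  · have : S 1 = 1 := by
      apply Equiv.ext
      rintro ⟨i, q⟩
      show (i + ((k 1 : ℤ) : ZMod m), φ (c _ 1) * q) = (i, q)
      rw [hk1, hc1, hφ1]
      simp
    show e.permCongr (S 1) = 1
    rw [this]
    ext i
    simp [Equiv.permCongr_apply]
  · intro a ha b hb hab
    have hmul : e.permCongr (S a) * e.permCongr (S b) = e.permCongr (S a * S b) := by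
      ext i
      simp [Equiv.permCongr_apply]
    rw [hmul, hamm_transport, div_lt_iff₀ hcpos, hcard]
    -- the bad set
    have hsub : (Finset.univ.filter fun v => S (a * b) v ≠ (S a * S b) v).card ≤
        ((Finset.univ.filter fun j : ZMod m =>
          ¬ (0 ≤ (j.val : ℤ) + k a ∧ (j.val : ℤ) + k a < m)) ×ˢ (Finset.univ : Finset Q)).card := by
      refine Finset.card_le_card_of_injOn (fun v => (v.1 + ((k b : ℤ) : ZMod m), v.2)) ?_ ?_
      · rintro ⟨i, q⟩ hv
        have hv' := (Finset.mem_filter.1 (Finset.mem_coe.1 hv)).2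
        rw [Finset.mem_coe, Finset.mem_product]
        refine ⟨Finset.mem_filter.2 ⟨Finset.mem_univ _, ?_⟩, Finset.mem_univ _⟩
        intro hgood
        apply hv'
        dsimp only at hgood
        show (i + ((k (a * b) : ℤ) : ZMod m),
            φ (c ((i + ((k (a * b) : ℤ) : ZMod m)).val : ℤ) (a * b)) * q) =
          (i + ((k b : ℤ) : ZMod m) + ((k a : ℤ) : ZMod m),
            φ (c ((i + ((k b : ℤ) : ZMod m) + ((k a : ℤ) : ZMod m)).val : ℤ) a) *
              (φ (c ((i + ((k b : ℤ) : ZMod m)).val : ℤ) b) * q))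
        have hij : i + ((k (a * b) : ℤ) : ZMod m) =
            i + ((k b : ℤ) : ZMod m) + ((k a : ℤ) : ZMod m) := by
          rw [hk]; push_cast; ring
        rw [hij]
        set j1 := i + ((k b : ℤ) : ZMod m) with hj1
        have hval : (((j1 + ((k a : ℤ) : ZMod m)).val : ℕ) : ℤ) = (j1.val : ℤ) + k a := by
          obtain ⟨n, hn⟩ := Int.eq_ofNat_of_zero_le hgood.1
          have hnm : n < m := by
            have := hgood.2
            rw [hn] at this
            exact_mod_cast this
          have h4 : j1 + ((k a : ℤ) : ZMod m) = (n : ZMod m) := by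
            have h5 : (((j1.val : ℤ) + k a : ℤ) : ZMod m) = ((n : ℤ) : ZMod m) := by rw [hn]
            push_cast at h5
            rw [ZMod.natCast_zmod_val] at h5
            exact h5
          rw [h4, ZMod.val_natCast, Nat.mod_eq_of_lt hnm, hn]
        have hprod : φ (c ((j1 + ((k a : ℤ) : ZMod m)).val : ℤ) (a * b)) =
            φ (c ((j1 + ((k a : ℤ) : ZMod m)).val : ℤ) a) * φ (c (j1.val : ℤ) b) := by
          have h6 := hcm ((j1 + ((k a : ℤ) : ZMod m)).val : ℤ) a b
          have h7 : (((j1 + ((k a : ℤ) : ZMod m)).val : ℕ) : ℤ) - k a = (j1.val : ℤ) := by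
            rw [hval]; ring
          rw [h7] at h6
          rw [h6]
          refine hφm _ (hE a ha _) _ (hE b hb _) ?_
          rw [← h6]
          exact hE _ hab _
        rw [hprod, mul_assoc]
      · rintro ⟨i, q⟩ _ ⟨i', q'⟩ _ h
        have h8 := Prod.ext_iff.1 h
        dsimp only at h8
        exact Prod.ext (add_right_cancel h8.1) h8.2
    rw [Finset.card_product, Finset.card_univ] at hsub
    have hcount := count m K (k a) (hK a ha)
    have h9 : (Finset.univ.filter fun v => S (a * b) v ≠ (S a * S b) v).card ≤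
        2 * K * Fintype.card Q := hsub.trans (Nat.mul_le_mul_right _ hcount)
    have h10 : ((Finset.univ.filter fun v => S (a * b) v ≠ (S a * S b) v).card : ℝ) ≤
        ((2 * K : ℕ) : ℝ) * Fintype.card Q := by exact_mod_cast h9
    refine lt_of_le_of_lt h10 ?_
    rw [← mul_assoc]
    exact mul_lt_mul_of_pos_right hmK hQpos
  · intro a ha ha1
    have hone : (1 : Equiv.Perm (Fin (Fintype.card (ZMod m × Q)))) = e.permCongr 1 := by
      ext i
      simp [Equiv.permCongr_apply]
    rw [hone, hamm_transport]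
    have hall : (Finset.univ.filter fun v => S a v ≠ (1 : Equiv.Perm (ZMod m × Q)) v) =
        Finset.univ := by
      rw [Finset.filter_eq_self]
      rintro ⟨i, q⟩ _ heq
      change (i + ((k a : ℤ) : ZMod m), φ (c ((i + ((k a : ℤ) : ZMod m)).val : ℤ) a) * q) =
        (i, q) at heq
      have h11 := Prod.ext_iff.1 heq
      dsimp only at h11
      have h12 : ((k a : ℤ) : ZMod m) = 0 := by
        have := h11.1
        exact add_eq_left.1 this
      have h13 : k a = 0 := by
        rw [ZMod.intCast_zmod_eq_zero_iff_dvd] at h12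
        apply Int.eq_zero_of_abs_lt_dvd h12
        have := hK a ha
        rw [hm]
        push_cast
        omega
      have h14 : φ (c ((i + ((k a : ℤ) : ZMod m)).val : ℤ) a) = 1 := mul_eq_right.1 h11.2
      rw [← hφ1] at h14
      have h15 : c ((i + ((k a : ℤ) : ZMod m)).val : ℤ) a ≠ 1 := by
        intro h16
        apply ha1
        have h17 := congrArg Subtype.val h16
        change t ^ (-_) * a * t ^ (_ - k a) = 1 at h17
        rw [h13, sub_zero, zpow_neg] at h17
        have h18 := congrArg (fun x => t ^ ((i + ((0 : ℤ) : ZMod m)).val : ℤ) * x *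
          (t ^ ((i + ((0 : ℤ) : ZMod m)).val : ℤ))⁻¹) h17
        simpa [mul_assoc] using h18
      exact hφi _ (hE a ha _) _ h1E h15 h14
    rw [hall, Finset.card_univ, div_self hcpos.ne']
    linarith

end

end Pool.Agent.N163.OMExt
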