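import Pool.Agent.N657.QR.Stm

/-!
# QR/NEU: condensation at the neutral point (helper163)
-/

set_option autoImplicit false

namespace Pool.Agent.N163.QRNeu

open Pool.Agent.N657.QR

theorem main (hB : S_BAS) (hI : S_IRB) (hF : S_FOU) (hL : S_LAT) : S_NEU := by
  intro d hd
  obtain ⟨C, hC, hlat⟩ := hL d hd
  refine ⟨C, hC, ?_⟩
  intro L _ U J Ψ hE hU hJ hG
  have h1 := hF d L (fun x y => cr x y Ψ) (Real.sqrt (U / J))
    (fun l f hl hf => hI d L U J l Ψ f hE hU hJ hl hG hf)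
  have h2 : (∑ x : Fin d → ZMod L, cr x x Ψ) = (Fintype.card (Fin d → ZMod L) : ℝ) := by
    rw [Finset.sum_congr rfl (fun x _ => (hB.crself x Ψ).trans hG.2.2.1), Finset.sum_const,
      Finset.card_univ, nsmul_eq_mul, mul_one]
  have h3 := hlat L
  have hc : (0 : ℝ) < (Fintype.card (Fin d → ZMod L) : ℝ) := by
    exact_mod_cast Fintype.card_pos
  have h4 : Real.sqrt (U / J) * (∑ k ∈ (Finset.univ : Finset (Fin d → ZMod L)).erase 0,
      1 / Real.sqrt (lam k)) ≤ Real.sqrt (U / J) * (C * (Fintype.card (Fin d → ZMod L) : ℝ)) :=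
    mul_le_mul_of_nonneg_left h3 (Real.sqrt_nonneg _)
  have h5 : (Fintype.card (Fin d → ZMod L) : ℝ) ≤
      (∑ x : Fin d → ZMod L, ∑ y, cr x y Ψ) / (Fintype.card (Fin d → ZMod L) : ℝ) +
        Real.sqrt (U / J) * (C * (Fintype.card (Fin d → ZMod L) : ℝ)) := by
    calc (Fintype.card (Fin d → ZMod L) : ℝ) = ∑ x : Fin d → ZMod L, cr x x Ψ := h2.symm
      _ ≤ _ := h1
      _ ≤ _ := by linarith
  have h6 := mul_le_mul_of_nonneg_right h5 hc.le
  rw [add_mul, div_mul_cancel₀ _ hc.ne'] at h6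
  nlinarith [h6]

end Pool.Agent.N163.QRNeu
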