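import Mathlib
import Pool.Agent.N906.RS.Stm

/-!
# RS/EUP: the upper bound for the logarithm of the generating function

`eup : S_PIT K → S_CNT K → S_EUP K`, for `MP_a793bb_nt` (project RS of helper906). The proof works for any
function `N : α → ℝ` with natural values `≥ 2` that satisfies the prime ideal theorem and a linear bound for
the counting function: `(1 + η)`-adic cutting of the range `N v > V = u ^ (-(1 - η))`, in which
`N ^ (θ u) / (N ^ u - 1) ≤ 1 / (u log N)` (`exp_bound`: `θ ≤ 1 / 2`), and the trivial bound below `V`.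
-/

set_option autoImplicit false

namespace Pool.Agent.N163.RS

open Finset Filter Topology

/-- the sum of the reciprocals of the squares of an arithmetic progression -/
theorem sum_sq (y h : ℝ) (hy : 0 < y) (hh : 0 < h) (K : ℕ) :
    ∑ k ∈ range (K + 1), h / (y + k * h) ^ 2 ≤ h / y ^ 2 + 1 / y - 1 / (y + K * h) := by
  induction K with
  | zero => simp
  | succ K ih =>
    rw [sum_range_succ]
    have h1 : 0 < y + K * h := by positivity
    have h2 : 0 < y + ((K + 1 : ℕ) : ℝ) * h := by positivity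
    have h3 : y + ((K + 1 : ℕ) : ℝ) * h = (y + K * h) + h := by push_cast; ring
    have h4 : h / (y + ((K + 1 : ℕ) : ℝ) * h) ^ 2 ≤
        1 / (y + K * h) - 1 / (y + ((K + 1 : ℕ) : ℝ) * h) := by
      rw [h3]
      set a := y + K * h with ha
      rw [div_sub_div _ _ h1.ne' (by positivity), div_le_div_iff₀ (by positivity) (by positivity)]
      have : 0 ≤ h * h * (a + h) := by positivity
      nlinarith [mul_pos h1 hh, mul_pos hh hh]
    linarith

theorem exp_bound (θ y : ℝ) (hθ : θ ≤ 1 / 2) (hy : 0 < y) :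
    Real.exp (θ * y) / (Real.exp y - 1) ≤ 1 / y := by
  have h1 : 0 < Real.exp y - 1 := by
    have := Real.add_one_lt_exp hy.ne'
    linarith
  rw [div_le_div_iff₀ h1 hy, one_mul]
  have h2 : Real.exp (θ * y) ≤ Real.exp (y / 2) := Real.exp_le_exp.2 (by nlinarith)
  have h3 : y / 2 ≤ Real.sinh (y / 2) := Real.self_le_sinh_iff.2 (by positivity)
  rw [Real.sinh_eq] at h3
  have h4 : Real.exp (y / 2) * Real.exp (y / 2) = Real.exp y := by
    rw [← Real.exp_add]; congr 1; ring
  have h5 : Real.exp (y / 2) * Real.exp (-(y / 2)) = 1 := by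
    rw [← Real.exp_add]; simp
  have h6 : 0 < Real.exp (y / 2) := Real.exp_pos _
  calc Real.exp (θ * y) * y ≤ Real.exp (y / 2) * y := mul_le_mul_of_nonneg_right h2 hy.le
    _ ≤ Real.exp (y / 2) * (Real.exp (y / 2) - Real.exp (-(y / 2))) :=
        mul_le_mul_of_nonneg_left (by linarith) h6.le
    _ = Real.exp y - 1 := by rw [mul_sub, h4, h5]

section count

variable {α : Type} (N : α → ℝ)

/-- the counting function -/
noncomputable def cn (t : ℝ) : ℝ := (Set.ncard {v : α | N v ≤ t} : ℝ)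

theorem cn_fin (C0 : ℝ) (hcnt : ∀ (Y : ℝ) (s : Finset α), 1 ≤ Y → (∀ v ∈ s, N v ≤ Y) →
    (s.card : ℝ) ≤ C0 * Y) (t : ℝ) : {v : α | N v ≤ t}.Finite := by
  by_contra hinf
  obtain ⟨n, hn⟩ := exists_nat_gt (C0 * max t 1)
  obtain ⟨s, hs, hc⟩ := Set.Infinite.exists_subset_card_eq hinf n
  have := hcnt (max t 1) s (le_max_right _ _) (fun v hv => (hs hv).trans (le_max_left _ _))
  rw [hc] at this
  linarith

theorem pit_real (hnat : ∀ v, ∃ n : ℕ, N v = n)
    (hpit : Tendsto (fun n : ℕ => (Set.ncard {v : α | N v ≤ n} : ℝ) * Real.log n / n) atTop (𝓝 1))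
    (δ : ℝ) (hδ : 0 < δ) (hδ1 : δ < 1) : ∃ T0 : ℝ, 3 ≤ T0 ∧ ∀ t : ℝ, T0 ≤ t →
      (1 - δ) * (t / Real.log t) ≤ cn N t ∧ cn N t ≤ (1 + δ) * (t / Real.log t) := by
  have hev := Metric.tendsto_atTop.1 hpit (δ / 2) (by positivity)
  obtain ⟨n0, hn0⟩ := hev
  refine ⟨max (n0 + 4) (4 / δ), le_max_of_le_left (by
    have : (0 : ℝ) ≤ n0 := Nat.cast_nonneg _
    linarith), ?_⟩
  intro t ht
  have ht1 : (n0 : ℝ) + 4 ≤ t := (le_max_left _ _).trans ht
  have ht2 : 4 / δ ≤ t := (le_max_right _ _).trans ht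
  have ht0 : (0 : ℝ) < t := by
    have : (0 : ℝ) ≤ n0 := Nat.cast_nonneg _
    linarith
  set n := ⌊t⌋₊ with hn
  have hnt : (n : ℝ) ≤ t := Nat.floor_le ht0.le
  have htn : t < n + 1 := Nat.lt_floor_add_one t
  have hnn : n0 ≤ n := by
    have : (n0 : ℝ) ≤ n := by linarith
    exact_mod_cast this
  have hn3 : (3 : ℝ) ≤ n := by
    have : (0 : ℝ) ≤ n0 := Nat.cast_nonneg _
    linarith
  have hcn : cn N t = (Set.ncard {v : α | N v ≤ n} : ℝ) := by
    unfold cn
    congr 2
    ext v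
    obtain ⟨m, hm⟩ := hnat v
    simp only [Set.mem_ofPred_eq, hm]
    constructor
    · intro h
      exact_mod_cast Nat.le_floor h
    · intro h
      exact h.trans hnt
  have h1 := hn0 n hnn
  rw [Real.dist_eq, abs_lt] at h1
  have hlogn : 0 < Real.log n := Real.log_pos (by linarith)
  have hlogt : 0 < Real.log t := Real.log_pos (by linarith)
  have hn0' : (0 : ℝ) < n := by linarith
  rw [← hcn] at h1
  have e1 : cn N t = (cn N t * Real.log n / n) * (n / Real.log n) := by
    field_simp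
  have hexp : Real.exp 1 ≤ 3 := by
    have := Real.exp_one_lt_d9
    linarith
  have h2 : (n : ℝ) / Real.log n ≤ t / Real.log t := by
    have h3 := Real.log_div_self_antitoneOn (show (n : ℝ) ∈ {x | Real.exp 1 ≤ x} from by
      show Real.exp 1 ≤ (n : ℝ); linarith) (show t ∈ {x | Real.exp 1 ≤ x} from by
      show Real.exp 1 ≤ t; linarith) hnt
    dsimp only at h3
    rw [div_le_div_iff₀ ht0 hn0'] at h3
    rw [div_le_div_iff₀ hlogn hlogt]
    linarith
  have h4 : (1 - δ / 2) * (t / Real.log t) ≤ n / Real.log n := by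
    have h5 : (n : ℝ) / Real.log t ≤ n / Real.log n :=
      div_le_div_of_nonneg_left hn0'.le hlogn (Real.log_le_log hn0' hnt)
    refine le_trans ?_ h5
    rw [← mul_div_assoc]
    apply div_le_div_of_nonneg_right _ hlogt.le
    have h6 : 4 ≤ t * δ := by
      rwa [div_le_iff₀ hδ] at ht2
    nlinarith
  constructor
  · calc (1 - δ) * (t / Real.log t) ≤ (1 - δ / 2) * ((1 - δ / 2) * (t / Real.log t)) := by
          have h7 : 0 ≤ t / Real.log t := by positivity
          nlinarith [sq_nonneg δ]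
      _ ≤ (1 - δ / 2) * (n / Real.log n) := mul_le_mul_of_nonneg_left h4 (by linarith)
      _ ≤ (cn N t * Real.log n / n) * (n / Real.log n) :=
          mul_le_mul_of_nonneg_right (by linarith) (by positivity)
      _ = cn N t := e1.symm
  · calc cn N t = (cn N t * Real.log n / n) * (n / Real.log n) := e1
      _ ≤ (1 + δ) * (n / Real.log n) := mul_le_mul_of_nonneg_right (by linarith) (by positivity)
      _ ≤ (1 + δ) * (t / Real.log t) := mul_le_mul_of_nonneg_left h2 (by linarith)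

theorem short (hnat : ∀ v, ∃ n : ℕ, N v = n)
    (hpit : Tendsto (fun n : ℕ => (Set.ncard {v : α | N v ≤ n} : ℝ) * Real.log n / n) atTop (𝓝 1))
    (C0 : ℝ) (hcnt : ∀ (Y : ℝ) (s : Finset α), 1 ≤ Y → (∀ v ∈ s, N v ≤ Y) →
      (s.card : ℝ) ≤ C0 * Y) (η : ℝ) (hη : 0 < η) (hη1 : η ≤ 1) :
    ∃ T0 : ℝ, 3 ≤ T0 ∧ ∀ T : ℝ, T0 ≤ T → ∀ s : Finset α,
      (∀ v ∈ s, T < N v ∧ N v ≤ (1 + η) * T) →
        (s.card : ℝ) ≤ (1 + η) * η * (T / Real.log T) := by
  classical
  obtain ⟨T0, hT0, h⟩ := pit_real N hnat hpit (η ^ 2 / 3) (by positivity) (by nlinarith)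
  refine ⟨T0, hT0, ?_⟩
  intro T hT s hs
  have hT3 : 3 ≤ T := hT0.trans hT
  have hfin := cn_fin N C0 hcnt
  have h1 := (h T hT).1
  have h2 := (h ((1 + η) * T) (by nlinarith)).2
  have hlogT : 0 < Real.log T := Real.log_pos (by linarith)
  have hr : T ≤ (1 + η) * T := by nlinarith
  have hlog : Real.log T ≤ Real.log ((1 + η) * T) := Real.log_le_log (by linarith) hr
  have h3 : cn N T + s.card ≤ cn N ((1 + η) * T) := by
    have h4 : {v : α | N v ≤ T} ∪ (s : Set α) ⊆ {v : α | N v ≤ (1 + η) * T} := by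
      rintro v (hv | hv)
      · exact le_trans hv hr
      · exact (hs v hv).2
    have h5 := Set.ncard_le_ncard h4 (hfin _)
    rw [Set.ncard_union_eq _ (hfin T) s.finite_toSet, Set.ncard_coe_finset] at h5
    · unfold cn
      exact_mod_cast h5
    · rw [Set.disjoint_left]
      intro v hv hv'
      exact absurd hv (not_le.2 (hs v hv').1)
  have h6 : (1 + η) * T / Real.log ((1 + η) * T) ≤ (1 + η) * (T / Real.log T) := by
    rw [← mul_div_assoc]
    exact div_le_div_of_nonneg_left (by nlinarith) hlogT hlog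
  have h7 : 0 ≤ T / Real.log T := by positivity
  have h8 : cn N ((1 + η) * T) ≤ (1 + η ^ 2 / 3) * ((1 + η) * (T / Real.log T)) :=
    h2.trans (mul_le_mul_of_nonneg_left h6 (by positivity))
  have h9 : (1 + η ^ 2 / 3) * ((1 + η) * (T / Real.log T)) - (1 - η ^ 2 / 3) * (T / Real.log T) =
      (η + η ^ 2 / 3 * (2 + η)) * (T / Real.log T) := by ring
  have h10 : (η + η ^ 2 / 3 * (2 + η)) ≤ (1 + η) * η := by nlinarith [sq_nonneg η]
  have h11 := mul_le_mul_of_nonneg_right h10 h7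
  linarith

/-- the summand -/
noncomputable def G (θ u x : ℝ) : ℝ := x ^ (θ * u - 1) / (x ^ u - 1)

theorem pow_sub_pos {u x : ℝ} (hu : 0 < u) (hx : 1 < x) : 0 < x ^ u - 1 := by
  have := Real.one_lt_rpow hx hu
  linarith

theorem G_nonneg {θ u x : ℝ} (hu : 0 < u) (hx : 1 < x) : 0 ≤ G θ u x :=
  div_nonneg (Real.rpow_nonneg (by linarith) _) (pow_sub_pos hu hx).le

theorem G_anti {θ u x y : ℝ} (hu : 0 < u) (hθ : θ * u ≤ 1) (hx : 1 < x) (hxy : x ≤ y) :
    G θ u y ≤ G θ u x := by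
  unfold G
  have h1 : y ^ (θ * u - 1) ≤ x ^ (θ * u - 1) :=
    Real.rpow_le_rpow_of_nonpos (by linarith) hxy (by linarith)
  have h2 : x ^ u ≤ y ^ u := Real.rpow_le_rpow (by linarith) hxy hu.le
  have h3 := pow_sub_pos hu hx
  exact div_le_div₀ (Real.rpow_nonneg (by linarith) _) h1 h3 (by linarith)

theorem G_val {θ u x : ℝ} (hu : 0 < u) (hθ : θ ≤ 1 / 2) (hx : 1 < x) :
    x / Real.log x * G θ u x ≤ u / (u * Real.log x) ^ 2 := by
  have hl : 0 < Real.log x := Real.log_pos hx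
  have hx0 : 0 < x := by linarith
  have hy : 0 < u * Real.log x := by positivity
  have e1 : x ^ u = Real.exp (u * Real.log x) := by
    rw [Real.rpow_def_of_pos hx0, mul_comm]
  have e2 : x * x ^ (θ * u - 1) = Real.exp (θ * (u * Real.log x)) := by
    rw [Real.rpow_def_of_pos hx0]
    nth_rewrite 1 [← Real.exp_log hx0]
    rw [← Real.exp_add]
    congr 1
    ring
  have h1 := exp_bound θ (u * Real.log x) hθ hy
  have h2 : x / Real.log x * G θ u x =
      (Real.exp (θ * (u * Real.log x)) / (Real.exp (u * Real.log x) - 1)) * (1 / Real.log x) := by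
    unfold G
    rw [← e1, ← e2]
    ring
  rw [h2]
  calc _ ≤ 1 / (u * Real.log x) * (1 / Real.log x) :=
        mul_le_mul_of_nonneg_right h1 (by positivity)
    _ = u / (u * Real.log x) ^ 2 := by field_simp

theorem large (η T0 : ℝ) (hη : 0 < η) (hT0 : 3 ≤ T0)
    (hsh : ∀ T : ℝ, T0 ≤ T → ∀ s : Finset α, (∀ v ∈ s, T < N v ∧ N v ≤ (1 + η) * T) →
        (s.card : ℝ) ≤ (1 + η) * η * (T / Real.log T))
    (T θ u : ℝ) (hT : T0 ≤ T) (hu : 0 < u) (hθ : θ ≤ 1 / 2) (hθu : θ * u ≤ 1)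
    (s : Finset α) (hs : ∀ v ∈ s, T < N v) :
    ∑ v ∈ s, G θ u (N v) ≤ (1 + η) ^ 2 * (1 / (u * Real.log T)) *
      (1 + u * Real.log (1 + η) / (u * Real.log T)) := by
  classical
  have hT3 : 3 ≤ T := hT0.trans hT
  have hTpos : 0 < T := by linarith
  have hr1 : 1 < 1 + η := by linarith
  have hlr : 0 < Real.log (1 + η) := Real.log_pos hr1
  have hlT : 0 < Real.log T := Real.log_pos (by linarith)
  set r := 1 + η with hr
  set kf : α → ℕ := fun v => ⌈Real.logb r (N v / T)⌉₊ - 1 with hkf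
  have hk1 : ∀ v ∈ s, T * r ^ kf v < N v ∧ N v ≤ r * (T * r ^ kf v) := by
    intro v hv
    have h1 : 1 < N v / T := (one_lt_div hTpos).2 (hs v hv)
    have h2 : 0 < Real.logb r (N v / T) := Real.logb_pos hr1 h1
    have h3 : 0 < ⌈Real.logb r (N v / T)⌉₊ := Nat.ceil_pos.2 h2
    obtain ⟨m, hm⟩ : ∃ m, ⌈Real.logb r (N v / T)⌉₊ = m + 1 := ⟨_, (Nat.succ_pred_eq_of_pos h3).symm⟩
    have hkm : kf v = m := by
      rw [hkf]
      dsimp only
      rw [hm]
      rfl
    have h4 : Real.logb r (N v / T) ≤ (m + 1 : ℕ) := by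
      rw [← hm]
      exact Nat.le_ceil _
    have h5 : (m : ℝ) < Real.logb r (N v / T) := by
      rw [← Nat.lt_ceil, hm]
      omega
    have hNT : 0 < N v / T := by linarith
    rw [hkm]
    constructor
    · rw [Real.lt_logb_iff_rpow_lt hr1 hNT, Real.rpow_natCast, lt_div_iff₀ hTpos] at h5
      linarith
    · rw [Real.logb_le_iff_le_rpow hr1 hNT, Real.rpow_natCast, div_le_iff₀ hTpos] at h4
      calc N v ≤ r ^ (m + 1) * T := h4
        _ = r * (T * r ^ m) := by ring
  set K := s.sup kf with hK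
  have hmaps : ∀ v ∈ s, kf v ∈ range (K + 1) := by
    intro v hv
    rw [mem_range, Nat.lt_succ_iff]
    exact Finset.le_sup (f := kf) hv
  rw [← Finset.sum_fiberwise_of_maps_to hmaps]
  have hcell : ∀ k ∈ range (K + 1), ∑ v ∈ s with kf v = k, G θ u (N v) ≤
      r * η * (u / (u * Real.log T + k * (u * Real.log r)) ^ 2) := by
    intro k _
    have hTk : T ≤ T * r ^ k := by
      have := one_le_pow₀ (n := k) hr1.le
      nlinarith
    have hTk1 : 1 < T * r ^ k := by linarith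
    have h1 := hsh (T * r ^ k) (by linarith) (s.filter (fun v => kf v = k)) (by
      intro v hv
      rw [mem_filter] at hv
      have := hk1 v hv.1
      rw [hv.2] at this
      exact this)
    have h2 : ∑ v ∈ s with kf v = k, G θ u (N v) ≤
        ((s.filter (fun v => kf v = k)).card : ℝ) * G θ u (T * r ^ k) := by
      rw [← nsmul_eq_mul]
      refine Finset.sum_le_card_nsmul _ _ _ ?_
      intro v hv
      rw [mem_filter] at hv
      have h3 := hk1 v hv.1
      rw [hv.2] at h3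
      exact G_anti hu hθu hTk1 h3.1.le
    have h4 := G_val (θ := θ) hu hθ hTk1
    have hlog : Real.log (T * r ^ k) = Real.log T + k * Real.log r := by
      rw [Real.log_mul hTpos.ne' (by positivity), Real.log_pow]
    calc ∑ v ∈ s with kf v = k, G θ u (N v)
        ≤ ((s.filter (fun v => kf v = k)).card : ℝ) * G θ u (T * r ^ k) := h2
      _ ≤ (r * η * (T * r ^ k / Real.log (T * r ^ k))) * G θ u (T * r ^ k) :=
          mul_le_mul_of_nonneg_right h1 (G_nonneg hu hTk1)
      _ = r * η * (T * r ^ k / Real.log (T * r ^ k) * G θ u (T * r ^ k)) := by ring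
      _ ≤ r * η * (u / (u * Real.log (T * r ^ k)) ^ 2) :=
          mul_le_mul_of_nonneg_left h4 (by positivity)
      _ = _ := by
          rw [hlog]
          congr 3
          ring
  refine (Finset.sum_le_sum hcell).trans ?_
  rw [← Finset.mul_sum]
  set y := u * Real.log T with hy
  set h := u * Real.log r with hh
  have hy0 : 0 < y := by positivity
  have hh0 : 0 < h := by positivity
  have h5 := sum_sq y h hy0 hh0 K
  have h6 : ∑ k ∈ range (K + 1), u / (y + k * h) ^ 2 =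
      1 / Real.log r * ∑ k ∈ range (K + 1), h / (y + k * h) ^ 2 := by
    rw [Finset.mul_sum]
    refine Finset.sum_congr rfl fun k _ => ?_
    rw [hh]
    field_simp
  rw [h6]
  have h7 : ∑ k ∈ range (K + 1), h / (y + k * h) ^ 2 ≤ 1 / y * (1 + h / y) := by
    refine h5.trans ?_
    have : 0 ≤ 1 / (y + K * h) := by positivity
    have e : 1 / y * (1 + h / y) = h / y ^ 2 + 1 / y := by
      field_simp
      ring
    rw [e]
    linarith
  have h8 : η / Real.log r ≤ r := by
    have h9 := Real.one_sub_inv_le_log_of_pos (show 0 < r by linarith)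
    rw [div_le_iff₀ hlr]
    have h10 : 1 - r⁻¹ = η / r := by
      rw [hr]
      field_simp
      ring
    rw [h10, div_le_iff₀ (by linarith)] at h9
    linarith
  have h11 : 0 ≤ 1 / y * (1 + h / y) := by positivity
  calc r * η * (1 / Real.log r * ∑ k ∈ range (K + 1), h / (y + k * h) ^ 2)
      = r * (η / Real.log r) * ∑ k ∈ range (K + 1), h / (y + k * h) ^ 2 := by ring
    _ ≤ r * (η / Real.log r) * (1 / y * (1 + h / y)) :=
        mul_le_mul_of_nonneg_left h7 (by positivity)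
    _ ≤ r * r * (1 / y * (1 + h / y)) := by
        apply mul_le_mul_of_nonneg_right _ h11
        exact mul_le_mul_of_nonneg_left h8 (by linarith)
    _ = _ := by ring

theorem small_ev (C0 μ ε η : ℝ) (hC0 : 0 < C0) (hμ : 0 < μ) (hε : 0 < ε) (hη : 0 < η) :
    ∀ᶠ u : ℝ in 𝓝[>] 0, 0 < u ∧ u < 1 ∧ C0 * u ^ (-(1 - η)) * Real.log (1 + 3 * μ / (u * Real.log 2)) ≤
      (ε / 2) * (3 * μ) / (u * Real.log (1 / u)) := by
  set Cc : ℝ := 1 + 3 * μ / Real.log 2 with hCc
  have hl2 : 0 < Real.log 2 := Real.log_pos (by norm_num)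
  have hCc0 : 0 < Cc := by positivity
  set a : ℝ := η / 4 with ha
  have ha0 : 0 < a := by positivity
  set D : ℝ := C0 * Cc ^ a / a ^ 2 with hD
  have ht : Tendsto (fun u : ℝ => D * u ^ (η / 2)) (𝓝[>] 0) (𝓝 0) := by
    have h1 : Tendsto (fun u : ℝ => u ^ (η / 2)) (𝓝 0) (𝓝 ((0 : ℝ) ^ (η / 2))) :=
      (Real.continuous_rpow_const (by positivity)).tendsto 0
    rw [Real.zero_rpow (by positivity)] at h1
    have h2 : Tendsto (fun u : ℝ => D * u ^ (η / 2)) (𝓝[>] 0) (𝓝 (D * 0)) :=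
      (h1.mono_left nhdsWithin_le_nhds).const_mul D
    rwa [mul_zero] at h2
  have h3 : ∀ᶠ u : ℝ in 𝓝[>] 0, D * u ^ (η / 2) < ε / 2 * (3 * μ) :=
    ht.eventually (gt_mem_nhds (by positivity))
  filter_upwards [h3, Ioo_mem_nhdsGT (zero_lt_one' ℝ)] with u hu1 hu2
  obtain ⟨hu0, hu01⟩ := hu2
  refine ⟨hu0, hu01, ?_⟩
  have hlu : 0 < Real.log (1 / u) := Real.log_pos ((one_lt_div hu0).2 hu01)
  rw [le_div_iff₀ (by positivity)]
  refine le_trans ?_ hu1.le
  have e1 : Real.log (1 / u) ≤ u ^ (-a) / a := by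
    have := Real.log_le_rpow_div (x := 1 / u) (by positivity) ha0
    rw [one_div] at this ⊢
    rwa [Real.inv_rpow hu0.le, ← Real.rpow_neg hu0.le] at this
  have e2 : Real.log (1 + 3 * μ / (u * Real.log 2)) ≤ Cc ^ a * u ^ (-a) / a := by
    have h5 : 1 + 3 * μ / (u * Real.log 2) ≤ Cc / u := by
      rw [hCc, add_div]
      have h6 : 1 ≤ 1 / u := (one_le_div hu0).2 hu01.le
      have h7 : 3 * μ / (u * Real.log 2) = 3 * μ / Real.log 2 / u := by field_simp
      rw [h7]
      linarith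
    have h8 := Real.log_le_rpow_div (x := Cc / u) (by positivity) ha0
    rw [Real.div_rpow hCc0.le hu0.le, div_eq_mul_inv (Cc ^ a), ← Real.rpow_neg hu0.le] at h8
    exact (Real.log_le_log (by positivity) h5).trans h8
  have e0 : 0 ≤ Real.log (1 + 3 * μ / (u * Real.log 2)) :=
    Real.log_nonneg (by
      have : 0 ≤ 3 * μ / (u * Real.log 2) := by positivity
      linarith)
  have hp1 : 0 < u ^ (-(1 - η)) := Real.rpow_pos_of_pos hu0 _
  have hp2 : 0 < u ^ (-a) := Real.rpow_pos_of_pos hu0 _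
  calc C0 * u ^ (-(1 - η)) * Real.log (1 + 3 * μ / (u * Real.log 2)) * (u * Real.log (1 / u))
      ≤ C0 * u ^ (-(1 - η)) * (Cc ^ a * u ^ (-a) / a) * (u * (u ^ (-a) / a)) := by
        gcongr
    _ = C0 * Cc ^ a / a ^ 2 * (u ^ (-(1 - η)) * u ^ (-a) * u ^ (1 : ℝ) * u ^ (-a)) := by
        rw [Real.rpow_one]
        field_simp
    _ = D * u ^ (η / 2) := by
        rw [← Real.rpow_add hu0, ← Real.rpow_add hu0, ← Real.rpow_add hu0, hD]
        congr 2
        rw [ha]
        ring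

theorem term_small {μ θ u x : ℝ} (hμ : 0 < μ) (hu : 0 < u) (hθu : θ * u ≤ 1) (hx : 2 ≤ x) :
    3 * μ * x ^ (θ * u - 1) / (x ^ u - 1) ≤ 3 * μ / (u * Real.log 2) := by
  have hl2 : 0 < Real.log 2 := Real.log_pos (by norm_num)
  have h1 : x ^ (θ * u - 1) ≤ 1 := Real.rpow_le_one_of_one_le_of_nonpos (by linarith) (by linarith)
  have h2 : u * Real.log 2 ≤ x ^ u - 1 := by
    have h3 : x ^ u = Real.exp (u * Real.log x) := by
      rw [Real.rpow_def_of_pos (by linarith), mul_comm]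
    have h4 := Real.add_one_le_exp (u * Real.log x)
    have h5 : Real.log 2 ≤ Real.log x := Real.log_le_log (by norm_num) hx
    rw [h3]
    nlinarith
  apply div_le_div₀ (by positivity) _ (by positivity) h2
  nlinarith

theorem eup_core (h2 : ∀ v, 2 ≤ N v) (hnat : ∀ v, ∃ n : ℕ, N v = n)
    (hpit : Tendsto (fun n : ℕ => (Set.ncard {v : α | N v ≤ n} : ℝ) * Real.log n / n) atTop (𝓝 1))
    (C0 : ℝ) (hC0 : 0 < C0) (hcnt : ∀ (Y : ℝ) (s : Finset α), 1 ≤ Y → (∀ v ∈ s, N v ≤ Y) →
      (s.card : ℝ) ≤ C0 * Y) (μ θ ε : ℝ) (hμ : 0 < μ) (hθ0 : 0 ≤ θ) (hθ : θ ≤ 1 / 2)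
    (hε : 0 < ε) : ∃ u₀ : ℝ, 0 < u₀ ∧ u₀ < 1 / 2 ∧ ∀ u : ℝ, 0 < u → u < u₀ → ∀ s : Finset α,
      ∑ v ∈ s, Real.log (1 + 3 * μ * (N v) ^ (θ * u - 1) / ((N v) ^ u - 1)) ≤
        (1 + ε) * (3 * μ) / (u * Real.log (1 / u)) := by
  classical
  obtain ⟨η, hη⟩ : ∃ η : ℝ, η = min ε 1 / 16 := ⟨_, rfl⟩
  have hη0 : 0 < η := by rw [hη]; positivity
  have hη1 : η ≤ 1 / 16 := by
    rw [hη]
    have := min_le_right ε 1
    linarith
  have hηε : 16 * η ≤ ε := by
    rw [hη]
    have := min_le_left ε 1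
    linarith
  obtain ⟨T0, hT0, hsh⟩ := short N hnat hpit C0 hcnt η hη0 (by linarith)
  have hV : ∀ᶠ u : ℝ in 𝓝[>] 0, u ^ (1 - η) < 1 / T0 := by
    have h1 : Tendsto (fun u : ℝ => u ^ (1 - η)) (𝓝 0) (𝓝 ((0 : ℝ) ^ (1 - η))) :=
      (Real.continuous_rpow_const (by linarith)).tendsto 0
    rw [Real.zero_rpow (by linarith)] at h1
    exact (h1.mono_left nhdsWithin_le_nhds).eventually (gt_mem_nhds (by positivity))
  have hall := (small_ev C0 μ ε η hC0 hμ hε hη0).and hV
  obtain ⟨u1, hu1, hsub⟩ := mem_nhdsGT_iff_exists_Ioo_subset.1 hall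
  refine ⟨min u1 (1 / 4), lt_min hu1 (by norm_num), (min_le_right _ _).trans_lt (by norm_num), ?_⟩
  intro u hu0 hu s
  have huu : u < u1 := hu.trans_le (min_le_left _ _)
  have hu4 : u < 1 / 4 := hu.trans_le (min_le_right _ _)
  obtain ⟨⟨-, -, hsm⟩, hVu⟩ := hsub ⟨hu0, huu⟩
  have hθu : θ * u ≤ 1 := by nlinarith
  set V : ℝ := u ^ (-(1 - η)) with hVdef
  have hp : 0 < u ^ (1 - η) := Real.rpow_pos_of_pos hu0 _
  have hVT : T0 ≤ V := by
    rw [hVdef, Real.rpow_neg hu0.le]
    rw [lt_div_iff₀ (by linarith)] at hVu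
    rw [← one_div, le_div_iff₀ hp]
    linarith
  have hV3 : 3 ≤ V := hT0.trans hVT
  have hlV : Real.log V = (1 - η) * Real.log (1 / u) := by
    rw [hVdef, Real.log_rpow hu0, one_div, Real.log_inv]
    ring
  have hlV1 : 1 ≤ Real.log V := by
    rw [Real.le_log_iff_exp_le (by linarith)]
    have := Real.exp_one_lt_d9
    linarith
  have hlu : 0 < Real.log (1 / u) := Real.log_pos ((one_lt_div hu0).2 (by linarith))
  rw [← Finset.sum_filter_add_sum_filter_not s (fun v => N v ≤ V)]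
  have hA : ∑ v ∈ s with N v ≤ V,
      Real.log (1 + 3 * μ * (N v) ^ (θ * u - 1) / ((N v) ^ u - 1)) ≤
      (ε / 2) * (3 * μ) / (u * Real.log (1 / u)) := by
    refine le_trans ?_ hsm
    have e0 : 0 ≤ Real.log (1 + 3 * μ / (u * Real.log 2)) :=
      Real.log_nonneg (by
        have hl2 : 0 < Real.log 2 := Real.log_pos (by norm_num)
        have : 0 ≤ 3 * μ / (u * Real.log 2) := by positivity
        linarith)
    calc _ ≤ ∑ v ∈ s with N v ≤ V, Real.log (1 + 3 * μ / (u * Real.log 2)) := by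
          refine Finset.sum_le_sum fun v _ => ?_
          have hN := h2 v
          have hpos : 0 ≤ 3 * μ * (N v) ^ (θ * u - 1) / ((N v) ^ u - 1) :=
            div_nonneg (mul_nonneg (by positivity) (Real.rpow_nonneg (by linarith) _))
              (pow_sub_pos hu0 (by linarith)).le
          have := term_small hμ hu0 hθu hN
          exact Real.log_le_log (by linarith) (by linarith)
      _ = ((s.filter (fun v => N v ≤ V)).card : ℝ) * Real.log (1 + 3 * μ / (u * Real.log 2)) := by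
          rw [Finset.sum_const, nsmul_eq_mul]
      _ ≤ C0 * V * Real.log (1 + 3 * μ / (u * Real.log 2)) := by
          apply mul_le_mul_of_nonneg_right _ e0
          exact hcnt V _ (by linarith) (fun v hv => (mem_filter.1 hv).2)
  have hB : ∑ v ∈ s with ¬ N v ≤ V,
      Real.log (1 + 3 * μ * (N v) ^ (θ * u - 1) / ((N v) ^ u - 1)) ≤
      (1 + ε / 2) * (3 * μ) / (u * Real.log (1 / u)) := by
    have h5 := large N η T0 hη0 hT0 hsh V θ u hVT hu0 hθ hθu (s.filter (fun v => ¬ N v ≤ V))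
      (fun v hv => not_le.1 (mem_filter.1 hv).2)
    have h6 : ∑ v ∈ s with ¬ N v ≤ V,
        Real.log (1 + 3 * μ * (N v) ^ (θ * u - 1) / ((N v) ^ u - 1)) ≤
        3 * μ * ∑ v ∈ s with ¬ N v ≤ V, G θ u (N v) := by
      rw [Finset.mul_sum]
      refine Finset.sum_le_sum fun v _ => ?_
      have hN := h2 v
      have hpos : 0 ≤ 3 * μ * (N v) ^ (θ * u - 1) / ((N v) ^ u - 1) :=
        div_nonneg (mul_nonneg (by positivity) (Real.rpow_nonneg (by linarith) _))
          (pow_sub_pos hu0 (by linarith)).le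
      have h7 := Real.log_le_sub_one_of_pos (x := 1 + 3 * μ * (N v) ^ (θ * u - 1) / ((N v) ^ u - 1))
        (by linarith)
      refine h7.trans (le_of_eq ?_)
      unfold G
      ring
    refine h6.trans ((mul_le_mul_of_nonneg_left h5 (by positivity)).trans ?_)
    have h8 : u * Real.log (1 + η) / (u * Real.log V) ≤ η := by
      rw [div_le_iff₀ (by positivity)]
      have h9 := Real.log_le_sub_one_of_pos (x := 1 + η) (by linarith)
      have h10 : Real.log (1 + η) ≤ η := by linarith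
      nlinarith [mul_nonneg hη0.le (sub_nonneg.2 hlV1)]
    have h11 : (1 + η) ^ 3 ≤ (1 + ε / 2) * (1 - η) := by
      have h12 : (1 + 8 * η) * (1 - η) ≤ (1 + ε / 2) * (1 - η) :=
        mul_le_mul_of_nonneg_right (by linarith) (by linarith)
      refine le_trans ?_ h12
      nlinarith [mul_nonneg hη0.le hη0.le, mul_nonneg (mul_nonneg hη0.le hη0.le) hη0.le]
    have h13 : 0 < u * Real.log V := by positivity
    calc 3 * μ * ((1 + η) ^ 2 * (1 / (u * Real.log V)) *
          (1 + u * Real.log (1 + η) / (u * Real.log V)))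
        ≤ 3 * μ * ((1 + η) ^ 2 * (1 / (u * Real.log V)) * (1 + η)) := by gcongr
      _ = (1 + η) ^ 3 * (3 * μ) / (u * Real.log V) := by ring
      _ ≤ ((1 + ε / 2) * (1 - η)) * (3 * μ) / (u * Real.log V) := by gcongr
      _ = (1 + ε / 2) * (3 * μ) / (u * Real.log (1 / u)) := by
          rw [hlV]
          have : (1 - η) ≠ 0 := by linarith
          field_simp
  have e : (1 + ε) * (3 * μ) / (u * Real.log (1 / u)) =
      (ε / 2) * (3 * μ) / (u * Real.log (1 / u)) +
        (1 + ε / 2) * (3 * μ) / (u * Real.log (1 / u)) := by ring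
  rw [e]
  exact add_le_add hA hB

end count

open Pool.Agent.N906.RS Pool.Agent.H691R3 Pool.Agent.W223.AK NumberField IsDedekindDomain in
/-- **EUP.** -/
theorem eup (K : Type) [Field K] [NumberField K] (h : S_PIT K) (hc : S_CNT K) : S_EUP K := by
  obtain ⟨C, hC, hc1, -⟩ := hc
  intro μ θ ε hμ hθ0 hθ hε
  have h2 : ∀ v : Pr K, 2 ≤ Nv v := fun v => two_le_Nv v
  have hnat : ∀ v : Pr K, ∃ n : ℕ, Nv v = n := fun v => ⟨Ideal.absNorm v.asIdeal, rfl⟩
  have key := eup_core (fun v : Pr K => Nv v) h2 hnat h C hC hc1 μ θ ε hμ hθ0 hθ hε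
  exact key

end Pool.Agent.N163.RS
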