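import Pool.Agent.N804.GM.StmS
import Pool.Agent.N79.GM_1

/-!
# Project SC (helper804), part 1 (helper163): Jensen on the closed disc with two bad boundary points

After helper79's file `Pool.Agent.N79.GM_1`.
-/

set_option autoImplicit false

namespace Pool.Agent.N163.SC1

open Filter Topology Set MeasureTheory
open Pool.Agent.N79.GM1 (jens avg_eq fatou_log im_cis norm_cis ae_sin cis_anal)

/-- the majorant -/
noncomputable def GG (A θ : ℝ) : ℝ := |A| * (1 + 2 * (Real.log 3 - Real.log (Real.sin θ)))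

theorem GG_nonneg (A θ : ℝ) : 0 ≤ GG A θ := by
  unfold GG
  have h1 : Real.log (Real.sin θ) ≤ 0 := by
    rw [← Real.log_abs]
    exact Real.log_nonpos (abs_nonneg _) (Real.abs_sin_le_one θ)
  have h2 : 0 ≤ Real.log 3 := Real.log_nonneg (by norm_num)
  exact mul_nonneg (abs_nonneg _) (by linarith)

theorem mem_of_im {w : ℂ} (h1 : ‖w‖ ≤ 1) (h2 : w.im ≠ 0) :
    w ∈ Metric.closedBall (0 : ℂ) 1 \ {-1, 1} := by
  refine ⟨?_, ?_⟩
  · rw [mem_closedBall_zero_iff]; exact h1
  · intro h
    rw [mem_insert_iff, mem_singleton_iff] at h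
    rcases h with h | h
    · apply h2
      rw [h]
      simp
    · apply h2
      rw [h]
      simp

theorem lg {s x : ℝ} (hs0 : 0 < |s|) (hs1 : |s| ≤ 1) (h2 : |s| / 2 ≤ x) :
    0 ≤ Real.log (1 + 1 / x) ∧ Real.log (1 + 1 / x) ≤ Real.log 3 - Real.log s := by
  have h3 : 0 < x := by linarith [half_pos hs0]
  have h4 : 1 + 1 / x ≤ 3 / |s| := by
    have h5 : 1 / x ≤ 2 / |s| := by
      rw [div_le_div_iff₀ h3 hs0]; linarith
    have h6 : 1 ≤ 1 / |s| := by rw [one_le_div hs0]; exact hs1
    calc 1 + 1 / x ≤ 1 / |s| + 2 / |s| := add_le_add h6 h5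
      _ = 3 / |s| := by ring
  constructor
  · apply Real.log_nonneg
    have : 0 < 1 / x := by positivity
    linarith
  · have h6 := Real.log_le_log (by positivity) h4
    rwa [Real.log_div (by norm_num) hs0.ne', Real.log_abs] at h6

theorem dom {F : ℂ → ℂ} {A : ℝ} (hb : ∀ w ∈ Metric.closedBall (0 : ℂ) 1 \ {-1, 1},
    ‖F w‖ ≤ Real.exp (A * (1 + Real.log (1 + 1 / ‖1 + w‖) + Real.log (1 + 1 / ‖1 - w‖))))
    {r θ : ℝ} (hr : 1 / 2 ≤ r) (hr1 : r ≤ 1) (hθ : Real.sin θ ≠ 0) :
    Real.log ‖F (r * Complex.exp (θ * Complex.I))‖ ≤ GG A θ := by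
  obtain ⟨w, hw⟩ : ∃ w : ℂ, w = (r : ℂ) * Complex.exp (θ * Complex.I) := ⟨_, rfl⟩
  rw [← hw]
  have hwn : ‖w‖ = r := by rw [hw, norm_cis (by linarith)]
  have hwi : w.im = r * Real.sin θ := by rw [hw, im_cis]
  have hs0 : 0 < |Real.sin θ| := abs_pos.2 hθ
  have hs1 : |Real.sin θ| ≤ 1 := Real.abs_sin_le_one θ
  have hmem : w ∈ Metric.closedBall (0 : ℂ) 1 \ {-1, 1} :=
    mem_of_im (by rw [hwn]; exact hr1) (by rw [hwi]; exact mul_ne_zero (by linarith) hθ)
  rcases eq_or_ne (F w) 0 with h0 | h0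
  · rw [h0, norm_zero, Real.log_zero]
    exact GG_nonneg A θ
  have h1 := Real.log_le_log (norm_pos_iff.2 h0) (hb w hmem)
  rw [Real.log_exp] at h1
  refine h1.trans ?_
  have h2 : |Real.sin θ| / 2 ≤ ‖1 + w‖ := by
    have h3 := Complex.abs_im_le_norm (1 + w)
    rw [Complex.add_im, Complex.one_im, zero_add, hwi, abs_mul, abs_of_nonneg (by linarith)] at h3
    nlinarith
  have h2' : |Real.sin θ| / 2 ≤ ‖1 - w‖ := by
    have h3 := Complex.abs_im_le_norm (1 - w)
    rw [Complex.sub_im, Complex.one_im, zero_sub, abs_neg, hwi, abs_mul,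
      abs_of_nonneg (by linarith)] at h3
    nlinarith
  obtain ⟨h5, h6⟩ := lg hs0 hs1 h2
  obtain ⟨h7, h8⟩ := lg hs0 hs1 h2'
  unfold GG
  calc A * (1 + Real.log (1 + 1 / ‖1 + w‖) + Real.log (1 + 1 / ‖1 - w‖)) ≤
        |A| * (1 + Real.log (1 + 1 / ‖1 + w‖) + Real.log (1 + 1 / ‖1 - w‖)) :=
        mul_le_mul_of_nonneg_right (le_abs_self A) (by linarith)
    _ ≤ |A| * (1 + 2 * (Real.log 3 - Real.log (Real.sin θ))) :=
        mul_le_mul_of_nonneg_left (by linarith) (abs_nonneg A)

theorem GG_int (A : ℝ) : IntervalIntegrable (GG A) volume (-Real.pi) Real.pi := by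
  have h1 : IntervalIntegrable (Real.log ∘ Real.sin) volume (-Real.pi) Real.pi :=
    intervalIntegrable_log_sin
  have h2 : IntervalIntegrable (fun _ : ℝ => Real.log 3) volume (-Real.pi) Real.pi :=
    intervalIntegrable_const
  have h3 : IntervalIntegrable (fun _ : ℝ => (1 : ℝ)) volume (-Real.pi) Real.pi :=
    intervalIntegrable_const
  exact (h3.add ((h2.sub h1).const_mul 2)).const_mul |A|

theorem main : Pool.Agent.N804.GM.S_DISC2 := by
  intro F A hF hb h0
  obtain ⟨μ, hμ⟩ : ∃ μ : Measure ℝ, μ = volume.restrict (Ioc (-Real.pi) Real.pi) := ⟨_, rfl⟩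
  have hpi : -Real.pi ≤ Real.pi := by linarith [Real.pi_pos]
  have hG : Integrable (GG A) μ := by
    have := (GG_int A).1
    rw [hμ]; exact this
  have hae := ae_sin
  rw [← hμ] at hae
  -- the function on the circle
  obtain ⟨f, hf⟩ : ∃ f : ℝ → ℝ, f = fun θ : ℝ => Real.log ‖F (Complex.exp (θ * Complex.I))‖ :=
    ⟨_, rfl⟩
  have hcis : ∀ θ : ℝ, Complex.exp (θ * Complex.I) =
      ((1 : ℝ) : ℂ) * Complex.exp (θ * Complex.I) := by
    intro θ; simp
  have hmem1 : ∀ θ : ℝ, Real.sin θ ≠ 0 →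
      Complex.exp (θ * Complex.I) ∈ Metric.closedBall (0 : ℂ) 1 \ {-1, 1} := by
    intro θ h1
    refine mem_of_im (by rw [Complex.norm_exp_ofReal_mul_I]) ?_
    rw [Complex.exp_ofReal_mul_I_im]
    exact h1
  have hfm : AEMeasurable f μ := by
    have hc : ContinuousOn (fun θ : ℝ => F (Complex.exp (θ * Complex.I)))
        (Ioo (-Real.pi) Real.pi \ {0}) := by
      intro θ hθ
      have h3 : Real.sin θ ≠ 0 := by
        intro h4
        rw [Real.sin_eq_zero_iff_of_lt_of_lt hθ.1.1 hθ.1.2] at h4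
        exact hθ.2 h4
      have h1 : ContinuousAt F (Complex.exp (θ * Complex.I)) := (hF _ (hmem1 θ h3)).continuousAt
      have h2 : ContinuousAt (fun θ : ℝ => Complex.exp (θ * Complex.I)) θ := by fun_prop
      exact (ContinuousAt.comp (f := fun θ : ℝ => Complex.exp (θ * Complex.I)) (g := F) h1
        h2).continuousWithinAt
    have hms : MeasurableSet (Ioo (-Real.pi) Real.pi \ {0}) :=
      measurableSet_Ioo.diff (measurableSet_singleton 0)
    have h3 : AEMeasurable (fun θ : ℝ => F (Complex.exp (θ * Complex.I)))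
        (volume.restrict (Ioo (-Real.pi) Real.pi \ {0})) :=
      (hc.aestronglyMeasurable hms).aemeasurable
    have h4 : μ = volume.restrict (Ioo (-Real.pi) Real.pi \ {0}) := by
      rw [hμ]
      refine (Measure.restrict_congr_set ?_).symm
      exact (sdiff_null_ae_eq_self (by simp)).trans Ioo_ae_eq_Ioc
    rw [h4, hf]
    exact Real.measurable_log.comp_aemeasurable (measurable_norm.comp_aemeasurable h3)
  have hfG : ∀ᵐ θ ∂μ, f θ ≤ GG A θ := by
    filter_upwards [hae] with θ hθ
    rw [hf]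
    simp only
    rw [hcis]
    exact dom hb (by norm_num) le_rfl hθ.1
  obtain ⟨rn, hrn⟩ : ∃ rn : ℕ → ℝ, rn = fun n : ℕ => 1 - (1 / 2) / ((n : ℝ) + 1) := ⟨_, rfl⟩
  have hr1 : ∀ n, rn n < 1 := by
    intro n
    rw [hrn]
    have : 0 < (1 / 2 : ℝ) / ((n : ℝ) + 1) := by positivity
    simp only
    linarith
  have hr2 : ∀ n, 1 / 2 ≤ rn n := by
    intro n
    rw [hrn]
    have : (1 / 2 : ℝ) / ((n : ℝ) + 1) ≤ 1 / 2 := by
      apply div_le_self (by norm_num)
      have : (0 : ℝ) ≤ n := Nat.cast_nonneg n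
      linarith
    simp only
    linarith
  have hrt : Tendsto rn atTop (𝓝 1) := by
    rw [hrn]
    have h1 : Tendsto (fun n : ℕ => (1 / 2 : ℝ) / ((n : ℝ) + 1)) atTop (𝓝 0) := by
      have h2 := tendsto_one_div_add_atTop_nhds_zero_nat (𝕜 := ℝ)
      have h3 := h2.const_mul (1 / 2)
      rw [mul_zero] at h3
      refine h3.congr fun n => ?_
      ring
    have h4 := h1.const_sub 1
    rwa [sub_zero] at h4
  have hFr : ∀ n, AnalyticOnNhd ℂ F (Metric.closedBall 0 (rn n)) := by
    intro n z hz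
    rw [mem_closedBall_zero_iff] at hz
    refine hF z ⟨?_, ?_⟩
    · rw [mem_closedBall_zero_iff]; exact hz.trans (hr1 n).le
    · intro h
      rw [mem_insert_iff, mem_singleton_iff] at h
      rcases h with h | h
      · rw [h, norm_neg, norm_one] at hz
        linarith [hr1 n]
      · rw [h, norm_one] at hz
        linarith [hr1 n]
  obtain ⟨fn, hfn⟩ : ∃ fn : ℕ → ℝ → ℝ, fn = fun (n : ℕ) (θ : ℝ) =>
    Real.log ‖F ((rn n : ℂ) * Complex.exp (θ * Complex.I))‖ := ⟨_, rfl⟩
  have hfi : ∀ n, IntervalIntegrable (fn n) volume (-Real.pi) Real.pi := by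
    intro n
    rw [hfn]
    have h1 : MeromorphicOn (fun θ : ℝ => F ((rn n : ℂ) * Complex.exp (θ * Complex.I)))
        (Set.uIcc (-Real.pi) Real.pi) := by
      intro θ _
      have h2 : AnalyticAt ℂ F ((rn n : ℂ) * Complex.exp (θ * Complex.I)) := by
        apply hFr n
        rw [mem_closedBall_zero_iff, norm_cis (by linarith [hr2 n])]
      have h3 : AnalyticAt ℝ F ((rn n : ℂ) * Complex.exp (θ * Complex.I)) := h2.restrictScalars
      exact (AnalyticAt.fun_comp (g := F)
        (f := fun θ : ℝ => (rn n : ℂ) * Complex.exp (θ * Complex.I)) h3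
        (cis_anal (rn n) θ)).meromorphicAt
    exact h1.intervalIntegrable_log_norm
  have hfi' : ∀ n, Integrable (fn n) μ := by
    intro n
    rw [hμ]; exact (hfi n).1
  have key : Integrable f μ ∧ 2 * Real.pi * Real.log ‖F 0‖ ≤ ∫ θ, f θ ∂μ := by
    refine fatou_log (Ln := fun _ => 2 * Real.pi * Real.log ‖F 0‖) hG hfi' hfm ?_ hfG ?_ ?_ ?_
    · intro n
      filter_upwards [hae] with θ hθ
      rw [hfn]
      exact dom hb (hr2 n) (hr1 n).le hθ.1
    · filter_upwards [hae] with θ hθ
      have hm := hmem1 θ hθ.1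
      have hcF : ContinuousAt F (Complex.exp (θ * Complex.I)) := (hF _ hm).continuousAt
      have ht : Tendsto (fun n => (rn n : ℂ) * Complex.exp (θ * Complex.I)) atTop
          (𝓝 (Complex.exp (θ * Complex.I))) := by
        have h1 : Tendsto (fun n => ((rn n : ℝ) : ℂ)) atTop (𝓝 ((1 : ℝ) : ℂ)) :=
          (Complex.continuous_ofReal.tendsto 1).comp hrt
        have h2 := h1.mul_const (Complex.exp (θ * Complex.I))
        rwa [Complex.ofReal_one, one_mul] at h2
      have ht2 : Tendsto (fun n => ‖F ((rn n : ℂ) * Complex.exp (θ * Complex.I))‖) atTop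
          (𝓝 ‖F (Complex.exp (θ * Complex.I))‖) := (hcF.tendsto.comp ht).norm
      rcases eq_or_ne (F (Complex.exp (θ * Complex.I))) 0 with hz | hz
      · rw [hf]
        simp only
        rw [hz, norm_zero, Real.log_zero, sub_zero]
        rw [hz, norm_zero] at ht2
        refine le_liminf_of_le (by isBoundedDefault) ?_
        filter_upwards [ht2.eventually (ge_mem_nhds (by norm_num : (0 : ℝ) < 1))] with n hn
        apply ENNReal.ofReal_le_ofReal
        rw [hfn]
        simp only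
        have := Real.log_nonpos (norm_nonneg (F ((rn n : ℂ) * Complex.exp (θ * Complex.I)))) hn
        linarith
      · have h1 : Tendsto (fun n => ENNReal.ofReal (GG A θ - fn n θ)) atTop
            (𝓝 (ENNReal.ofReal (GG A θ - f θ))) := by
          refine (ENNReal.continuous_ofReal.tendsto _).comp ?_
          refine tendsto_const_nhds.sub ?_
          rw [hfn, hf]
          exact (Real.continuousAt_log (norm_ne_zero_iff.2 hz)).tendsto.comp ht2
        exact h1.liminf_eq.ge
    · exact tendsto_const_nhds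
    · intro n
      have h1 := jens (r := rn n) (by linarith [hr2 n]) (hFr n) h0 ∅ (by simp)
      rw [avg_eq, intervalIntegral.integral_of_le hpi, ← hμ, one_div,
        inv_mul_eq_div, le_div_iff₀ (by positivity), Finset.sum_empty, add_zero] at h1
      rw [hfn]
      simp only
      linarith
  constructor
  · rw [intervalIntegrable_iff_integrableOn_Ioc_of_le hpi, IntegrableOn, ← hμ, ← hf]
    exact key.1
  · have h1 := key.2
    rw [intervalIntegral.integral_of_le hpi, ← hμ, one_div, inv_mul_eq_div,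
      le_div_iff₀ (by positivity)]
    rw [hf] at h1
    linarith

end Pool.Agent.N163.SC1
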